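import Pool.Agent.K7.H66.ML.Root
import Pool.Agent.Results.MP_4b1745_al.OneVariable

/-!
# Assembly: the division ring `SR D` over its centre
-/

namespace Pool.Agent.K7.H66.ML

open HahnSeries Finset
open Pool.Agent.Results.MP_4b1745_al.OneVariable (FreeOver evalAt AlgClosedIn lift_const lift_var)

set_option linter.unusedSectionVars false

variable {S : Type*} [Field S] [CharZero S] {D : PD S}

theorem star_fin (a b : HahnSeries ℚ S) (N : ℕ) (h : ∀ n, N ≤ n → tm D n a b = 0) :
    star D a b = ∑ n ∈ range N, tm D n a b := by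
  ext γ
  rw [star, SummableFamily.coeff_hsum, finsum_eq_sum_of_support_subset (s := range N), coeff_sum]
  · rfl
  · intro n hn
    rw [coe_range, Set.mem_Iio]
    by_contra hcon
    apply hn
    change (tm D n a b).coeff γ = 0
    rw [h n (not_lt.mp hcon), coeff_zero]

theorem HP_single (d : Derivation ℚ S S) (n : ℕ) (γ : ℚ) (w : S) :
    HP d n (single γ w) = single γ (dp d n w) := by
  ext δ
  rw [HP_coeff]
  by_cases h : δ = γ
  · rw [h, coeff_single_same, coeff_single_same]
  · rw [coeff_single_of_ne h, coeff_single_of_ne h, map_zero]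

/-- The commutator of the two coordinates. -/
theorem comm_coord (t u : S) (h1 : D.d1 t = 1) (h2 : D.d1 u = 0) (h3 : D.d2 u = 1) :
    mo D 0 t * mo D 0 u = mo D 0 u * mo D 0 t + cn D 1 1 := by
  have hdp : ∀ n, dp D.d1 (n + 2) t = 0 := by
    intro n
    induction n with
    | zero => rw [dp_succ, dp_succ, dp_zero, h1]; exact D.d1.map_one_eq_zero
    | succ n ih => rw [dp_succ, ih, map_zero]
  have hdp' : ∀ n, dp D.d1 (n + 1) u = 0 := by
    intro n
    induction n with
    | zero => rw [dp_succ, dp_zero, h2]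
    | succ n ih => rw [dp_succ, ih, map_zero]
  apply toH.injective
  rw [map_add, toH_mul, toH_mul, toH_mo, toH_mo, star_fin _ _ 2, star_fin _ _ 1]
  · rw [Finset.sum_range_succ, Finset.sum_range_one, Finset.sum_range_one, toH_cn, tm, tm, tm,
      HP_zero, HE_zero, HP_zero, HE_zero, mul_comm (single 0 t) (single 0 u)]
    congr 1
    rw [HP_single, dp_succ, dp_zero, h1, HE_apply, HP_single, dp_succ, dp_zero, h3]
    have e : (single 0 1 : HahnSeries ℚ S) = 1 := rfl
    rw [e, cen, one_smul, Nat.cast_one]
    simp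
  · intro n hn
    obtain ⟨m, rfl⟩ := Nat.exists_eq_add_of_le' hn
    rw [tm, HP_single, hdp', map_zero, zero_mul, mul_zero]
  · intro n hn
    obtain ⟨m, rfl⟩ := Nat.exists_eq_add_of_le' hn
    rw [tm, HP_single, hdp, map_zero, zero_mul, mul_zero]

instance : Nontrivial (SR D) := ⟨⟨0, 1, fun h => by
  have h1 := congrArg (fun z => (toH z).coeff 0) h
  simp only [map_zero, coeff_zero, toH_one] at h1
  rw [show (1 : HahnSeries ℚ S) = single 0 1 from rfl, coeff_single_same] at h1
  exact zero_ne_one h1⟩⟩

/-- The evaluation functions are generalized polynomial functions. -/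
theorem GP_eval {P R : Type*} [Field P] [Ring R] [Algebra P R] (f : FreeOver P R Unit) :
    GP (fun y : R => evalAt (fun _ : Unit => y) f) := by
  induction f using Pool.Agent.Results.MP_4b1745_al.OneVariable.induct with
  | hc a =>
    simp only [evalAt, lift_const]
    exact GP.const _
  | hv i =>
    simp only [evalAt, lift_var]
    exact GP.ident
  | hadd f g hf hg =>
    simp only [map_add]
    exact GP.add hf hg
  | hmul f g hf hg =>
    simp only [map_mul]
    exact GP.mul hf hg

theorem isUnit_or (hDC : ∀ G : S → S, DP D.d1 D.d2 G → (∃ a b, G a ≠ G b) → ∃ w, G w = 0)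
    (a : SR D) : IsUnit a ∨ a = 0 := by
  have key : ∀ a : SR D, a ≠ 0 → ∃ b, a * b = 1 := by
    intro a ha
    obtain ⟨y, hy⟩ := root hDC (φ := fun z => a * z + (-1)) (GP.add (GP.mul (GP.const a) GP.ident)
      (GP.const _)) ⟨0, 1, fun h => ha (by simpa using h)⟩
    exact ⟨y, add_neg_eq_zero.mp hy⟩
  by_cases ha : a = 0
  · exact Or.inr ha
  · left
    obtain ⟨b, hb⟩ := key a ha
    have hb0 : b ≠ 0 := by
      rintro rfl
      rw [mul_zero] at hb
      exact zero_ne_one hb
    obtain ⟨c, hc⟩ := key b hb0
    have hac : a = c := by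
      calc a = a * (b * c) := by rw [hc, mul_one]
        _ = c := by rw [← mul_assoc, hb, one_mul]
    rw [← hac] at hc
    exact ⟨⟨a, b, hb, hc⟩, rfl⟩

theorem natCast_toH (n : ℕ) : toH ((n : SR D)) = (n : HahnSeries ℚ S) := by
  induction n with
  | zero => rw [Nat.cast_zero, Nat.cast_zero, map_zero]
  | succ n ih => rw [Nat.cast_succ, Nat.cast_succ, map_add, ih, toH_one]

instance : CharZero (SR D) := ⟨fun m n h => by
  have h1 := congrArg toH h
  rw [natCast_toH, natCast_toH, ← single_zero_natCast, ← single_zero_natCast] at h1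
  have h2 := congrArg (fun z => HahnSeries.coeff z 0) h1
  simp only [coeff_single_same] at h2
  exact_mod_cast h2⟩

/-- A division ring of characteristic zero in which `t u - u t` is a nonzero central element is
infinite-dimensional over its centre. -/
theorem infinite_dim {P R : Type*} [Field P] [DivisionRing R] [Algebra P R] [CharZero R]
    (t u : R) (h : P) (h0 : h ≠ 0) (hc : t * u = u * t + algebraMap P R h) :
    ¬ FiniteDimensional P R := by
  intro hfd
  have h1 : LinearMap.mulLeft P t * LinearMap.mulLeft P u =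
      LinearMap.mulLeft P u * LinearMap.mulLeft P t + h • (1 : Module.End P R) := by
    ext x
    simp only [Module.End.mul_apply, LinearMap.mulLeft_apply, LinearMap.add_apply,
      LinearMap.smul_apply, Module.End.one_apply]
    rw [← mul_assoc, hc, add_mul, mul_assoc, Algebra.smul_def]
  have h2 := congrArg (LinearMap.trace P R) h1
  rw [map_add, LinearMap.trace_mul_comm, left_eq_add, map_smul, LinearMap.trace_one,
    smul_eq_mul, mul_eq_zero] at h2
  rcases h2 with h2 | h2
  · exact h0 h2
  · have hP : CharZero P := by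
      refine ⟨fun m n hmn => ?_⟩
      have := congrArg (algebraMap P R) hmn
      rw [map_natCast, map_natCast] at this
      exact_mod_cast this
    have h3 : Module.finrank P R = 0 := by exact_mod_cast h2
    exact absurd h3 Module.finrank_pos.ne'

/-- The statement of the theorem on generalized polynomial identities. -/
def NoGPI.{u} : Prop :=
  ∀ (P R : Type u) [Field P] [DivisionRing R] [Algebra P R] [CharZero R],
    (∀ r : R, (∀ s : R, r * s = s * r) → r ∈ Set.range (algebraMap P R)) →
    ¬ FiniteDimensional P R → ∀ f : FreeOver P R Unit,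
    f ∉ Set.range (Pool.Agent.Results.MP_4b1745_al.OneVariable.const P R Unit) →
    ∃ y z : R, evalAt (fun _ : Unit => y) f ≠ evalAt (fun _ : Unit => z) f

/-- The main theorem, from its ingredients. -/
theorem main_of {T : Type} [Field T] [CharZero T] (d1 d2 : Derivation ℚ T T) (hD : IsDC d1 d2)
    (hgpi : NoGPI.{0}) : ∃ (P : Type) (R : Type) (_ : Field P) (_ : DivisionRing R)
      (_ : Algebra P R), CharZero R ∧ AlgClosedIn P R ℕ := by
  let E : PD T := ⟨d1, d2, hD.comm⟩
  have hDC : ∀ G : T → T, DP E.d1 E.d2 G → (∃ a b, G a ≠ G b) → ∃ w, G w = 0 := hD.zero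
  let _ : DivisionRing (SR E) := DivisionRing.ofIsUnitOrEqZero (isUnit_or hDC)
  refine ⟨Subring.center (SR E), SR E, inferInstance, inferInstance, inferInstance,
    inferInstance, ?_⟩
  obtain ⟨t, u, h1, h2, h3, h4⟩ := hD.coords
  have hcen : ∀ r : SR E, (∀ s : SR E, r * s = s * r) →
      r ∈ Set.range (algebraMap (Subring.center (SR E)) (SR E)) := by
    intro r hr
    exact ⟨⟨r, Subring.mem_center_iff.mpr fun g => (hr g).symm⟩, rfl⟩
  have hcn0 : cn E 1 1 ≠ 0 := by
    intro h
    have h5 := congrArg toH h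
    rw [toH_cn, map_zero, cen, one_smul, hb] at h5
    have h6 := congrArg (fun z => HahnSeries.coeff z 1) h5
    simp only [coeff_single_same, coeff_zero] at h6
    exact one_ne_zero h6
  have hcomm : mo E 0 t * mo E 0 u = mo E 0 u * mo E 0 t + cn E 1 1 := comm_coord t u h1 h3 h4
  have hinf : ¬ FiniteDimensional (Subring.center (SR E)) (SR E) := by
    refine infinite_dim (mo E 0 t) (mo E 0 u)
      ⟨cn E 1 1, Subring.mem_center_iff.mpr fun g => cn_comm 1 1 g⟩ ?_ hcomm
    intro h
    exact hcn0 (congrArg Subtype.val h)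
  rw [Pool.Agent.Results.MP_4b1745_al.OneVariable.result]
  refine ⟨fun hs => ?_, fun f hf => ?_⟩
  · obtain ⟨a, ha⟩ := hs (mo E 0 t)
    have h5 : mo E 0 t * mo E 0 u = mo E 0 u * mo E 0 t := by
      rw [← ha]
      exact (Subring.mem_center_iff.mp a.2 _).symm
    rw [h5] at hcomm
    exact hcn0 (left_eq_add.mp hcomm)
  · obtain ⟨y, z, hyz⟩ := hgpi _ _ hcen hinf f hf
    obtain ⟨w, hw⟩ := root hDC (GP_eval f) ⟨y, z, hyz⟩
    exact ⟨fun _ => w, hw⟩

end Pool.Agent.K7.H66.ML
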