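import Pool.Agent.K7.H66.ML.Defs

/-!
# Coefficientwise derivations of Hahn series
-/

namespace Pool.Agent.K7.H66.ML

open HahnSeries Finset

set_option linter.unusedSectionVars false

variable {S : Type*} [Field S] [CharZero S]

/-- The coefficientwise extension of a derivation to Hahn series. -/
noncomputable def HD (d : Derivation ℚ S S) : HahnSeries ℚ S →ₗ[ℚ] HahnSeries ℚ S where
  toFun a := a.map (d : S →ₗ[ℚ] S)
  map_add' a b := by ext; simp
  map_smul' q a := by ext; simp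

@[simp] theorem HD_coeff (d : Derivation ℚ S S) (a : HahnSeries ℚ S) (γ : ℚ) :
    (HD d a).coeff γ = d (a.coeff γ) := rfl

theorem HD_support (d : Derivation ℚ S S) (a : HahnSeries ℚ S) : (HD d a).support ⊆ a.support := by
  intro γ h h2
  apply h
  rw [HD_coeff]
  have : a.coeff γ = 0 := h2
  rw [this, map_zero]

theorem HD_mul (d : Derivation ℚ S S) (a b : HahnSeries ℚ S) :
    HD d (a * b) = a * HD d b + HD d a * b := by
  ext γ
  rw [HD_coeff, coeff_add, coeff_mul, coeff_mul_right' b.isPWO_support (HD_support d b),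
    coeff_mul_left' a.isPWO_support (HD_support d a), map_sum, ← Finset.sum_add_distrib]
  refine Finset.sum_congr rfl fun ij _ => ?_
  rw [Derivation.leibniz, HD_coeff, HD_coeff]
  simp [mul_comm]

/-- Iterates of `HD`. -/
noncomputable def HP (d : Derivation ℚ S S) (n : ℕ) : HahnSeries ℚ S →ₗ[ℚ] HahnSeries ℚ S :=
  HD d ^ n

theorem HP_zero (d : Derivation ℚ S S) (a : HahnSeries ℚ S) : HP d 0 a = a := by
  simp [HP]

theorem HP_succ (d : Derivation ℚ S S) (n : ℕ) (a : HahnSeries ℚ S) :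
    HP d (n + 1) a = HD d (HP d n a) := by
  simp [HP, pow_succ']

theorem HP_add (d : Derivation ℚ S S) (m n : ℕ) (a : HahnSeries ℚ S) :
    HP d m (HP d n a) = HP d (m + n) a := by
  simp [HP, _root_.pow_add]

/-- Iterates of `d`. -/
noncomputable def dp (d : Derivation ℚ S S) (n : ℕ) : S →ₗ[ℚ] S := (d : S →ₗ[ℚ] S) ^ n

theorem dp_zero (d : Derivation ℚ S S) (a : S) : dp d 0 a = a := by simp [dp]

theorem dp_succ (d : Derivation ℚ S S) (n : ℕ) (a : S) : dp d (n + 1) a = d (dp d n a) := by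
  simp [dp, pow_succ']

theorem HP_coeff (d : Derivation ℚ S S) (n : ℕ) (a : HahnSeries ℚ S) (γ : ℚ) :
    (HP d n a).coeff γ = dp d n (a.coeff γ) := by
  induction n with
  | zero => simp [HP_zero, dp]
  | succ n ih => rw [HP_succ, HD_coeff, ih, dp_succ]

theorem HP_support (d : Derivation ℚ S S) (n : ℕ) (a : HahnSeries ℚ S) :
    (HP d n a).support ⊆ a.support := by
  intro γ h h2
  apply h
  rw [HP_coeff]
  have : a.coeff γ = 0 := h2
  rw [this, map_zero]

/-- Leibniz formula for iterates. -/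
theorem HP_mul (d : Derivation ℚ S S) (n : ℕ) (a b : HahnSeries ℚ S) :
    HP d n (a * b) = ∑ ij ∈ antidiagonal n, n.choose ij.1 • (HP d ij.1 a * HP d ij.2 b) := by
  induction n with
  | zero => simp [HP_zero]
  | succ n ih =>
    rw [sum_antidiagonal_choose_succ_nsmul (M := HahnSeries ℚ S)
      (fun i j => HP d i a * HP d j b) n]
    rw [HP_succ, ih, map_sum, ← Finset.sum_add_distrib]
    refine sum_congr rfl fun ij hij => ?_
    have hs : n.choose ij.2 = n.choose ij.1 := by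
      rw [Nat.choose_symm_of_eq_add (mem_antidiagonal.1 hij).symm]
    rw [map_nsmul, HD_mul, HP_succ, HP_succ, hs, smul_add]

/-- Divided iterates of `HD`. -/
noncomputable def HE (d : Derivation ℚ S S) (n : ℕ) : HahnSeries ℚ S →ₗ[ℚ] HahnSeries ℚ S :=
  ((n.factorial : ℚ)⁻¹) • HP d n

theorem HE_zero (d : Derivation ℚ S S) (a : HahnSeries ℚ S) : HE d 0 a = a := by
  simp [HE, HP_zero]

theorem HE_apply (d : Derivation ℚ S S) (n : ℕ) (a : HahnSeries ℚ S) :
    HE d n a = ((n.factorial : ℚ)⁻¹) • HP d n a := rfl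

theorem HE_coeff (d : Derivation ℚ S S) (n : ℕ) (a : HahnSeries ℚ S) (γ : ℚ) :
    (HE d n a).coeff γ = ((n.factorial : ℚ)⁻¹) • dp d n (a.coeff γ) := by
  rw [HE_apply, coeff_smul, HP_coeff]

theorem HE_support (d : Derivation ℚ S S) (n : ℕ) (a : HahnSeries ℚ S) :
    (HE d n a).support ⊆ a.support := by
  intro γ h h2
  apply h
  rw [HE_coeff]
  have : a.coeff γ = 0 := h2
  rw [this, map_zero, smul_zero]

theorem HE_mul (d : Derivation ℚ S S) (n : ℕ) (a b : HahnSeries ℚ S) :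
    HE d n (a * b) = ∑ ij ∈ antidiagonal n, HE d ij.1 a * HE d ij.2 b := by
  rw [HE_apply, HP_mul, Finset.smul_sum]
  refine sum_congr rfl fun ij hij => ?_
  obtain ⟨i, j⟩ := ij
  have hij' : i + j = n := mem_antidiagonal.1 hij
  subst hij'
  simp only [HE_apply]
  rw [smul_mul_smul_comm, ← Nat.cast_smul_eq_nsmul ℚ, smul_smul]
  congr 1
  have h := Nat.choose_mul_factorial_mul_factorial (Nat.le_add_right i j)
  rw [Nat.add_sub_cancel_left] at h
  have h' : ((i + j).choose i : ℚ) * i.factorial * j.factorial = (i + j).factorial := by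
    exact_mod_cast h
  have hi : (i.factorial : ℚ) ≠ 0 := by exact_mod_cast i.factorial_ne_zero
  have hj : (j.factorial : ℚ) ≠ 0 := by exact_mod_cast j.factorial_ne_zero
  rw [← h']
  have hc : ((i + j).choose i : ℚ) ≠ 0 := by
    exact_mod_cast (Nat.choose_pos (Nat.le_add_right i j)).ne'
  field_simp

theorem HE_HE (d : Derivation ℚ S S) (m n : ℕ) (a : HahnSeries ℚ S) :
    HE d m (HE d n a) = (m + n).choose m • HE d (m + n) a := by
  simp only [HE_apply]
  rw [map_smul, HP_add, smul_smul, ← Nat.cast_smul_eq_nsmul ℚ, smul_smul]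
  congr 1
  have h := Nat.choose_mul_factorial_mul_factorial (Nat.le_add_right m n)
  rw [Nat.add_sub_cancel_left] at h
  have h' : ((m + n).choose m : ℚ) * m.factorial * n.factorial = (m + n).factorial := by
    exact_mod_cast h
  have hi : (m.factorial : ℚ) ≠ 0 := by exact_mod_cast m.factorial_ne_zero
  have hj : (n.factorial : ℚ) ≠ 0 := by exact_mod_cast n.factorial_ne_zero
  have hc : ((m + n).choose m : ℚ) ≠ 0 := by
    exact_mod_cast (Nat.choose_pos (Nat.le_add_right m n)).ne'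
  rw [← h']
  field_simp

theorem HP_comm {d1 d2 : Derivation ℚ S S} (h : ∀ x, d1 (d2 x) = d2 (d1 x)) (m n : ℕ)
    (a : HahnSeries ℚ S) : HP d1 m (HP d2 n a) = HP d2 n (HP d1 m a) := by
  have hc : Commute (HD d1) (HD d2) := by
    ext a γ
    exact h _
  have := (hc.pow_pow m n).eq
  exact DFunLike.congr_fun this a

theorem HP_HE_comm {d1 d2 : Derivation ℚ S S} (h : ∀ x, d1 (d2 x) = d2 (d1 x)) (m n : ℕ)
    (a : HahnSeries ℚ S) : HP d1 m (HE d2 n a) = HE d2 n (HP d1 m a) := by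
  simp only [HE_apply, map_smul, HP_comm h]

/-- `d` kills rational constants. -/
theorem der_algebraMap (d : Derivation ℚ S S) (q : ℚ) : d (algebraMap ℚ S q) = 0 :=
  d.map_algebraMap q

/-- Powers of `ħ`. -/
noncomputable def hb (γ : ℚ) : HahnSeries ℚ S := single γ 1

theorem hb_mul (γ δ : ℚ) : (hb γ : HahnSeries ℚ S) * hb δ = hb (γ + δ) := by
  simp [hb]

theorem hb_coeff (γ δ : ℚ) (a : HahnSeries ℚ S) : (hb γ * a).coeff δ = a.coeff (δ - γ) := by
  rw [hb, coeff_single_mul, one_mul]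

theorem HP_hb_mul (d : Derivation ℚ S S) (n : ℕ) (γ : ℚ) (a : HahnSeries ℚ S) :
    HP d n (hb γ * a) = hb γ * HP d n a := by
  ext δ
  rw [HP_coeff, hb_coeff, hb_coeff, HP_coeff]

theorem HE_hb_mul (d : Derivation ℚ S S) (n : ℕ) (γ : ℚ) (a : HahnSeries ℚ S) :
    HE d n (hb γ * a) = hb γ * HE d n a := by
  rw [HE_apply, HP_hb_mul, HE_apply, mul_smul_comm]

/-- The subgroup of series all of whose exponents are `≥ δ`. -/
noncomputable def Fil (δ : ℚ) : Submodule ℚ (HahnSeries ℚ S) where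
  carrier := {x | ∀ γ < δ, x.coeff γ = 0}
  add_mem' ha hb γ h := by simp [ha γ h, hb γ h]
  zero_mem' γ _ := rfl
  smul_mem' q x hx γ h := by simp [hx γ h]

theorem mem_Fil {δ : ℚ} {x : HahnSeries ℚ S} : x ∈ Fil δ ↔ ∀ γ < δ, x.coeff γ = 0 := Iff.rfl

theorem Fil_mono {δ ε : ℚ} (h : δ ≤ ε) {x : HahnSeries ℚ S} (hx : x ∈ Fil ε) : x ∈ Fil δ :=
  fun γ hγ => hx γ (lt_of_lt_of_le hγ h)

theorem Fil_mul {δ ε : ℚ} {x y : HahnSeries ℚ S} (hx : x ∈ Fil δ) (hy : y ∈ Fil ε) :
    x * y ∈ Fil (δ + ε) := by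
  intro γ hγ
  rw [coeff_mul]
  refine Finset.sum_eq_zero fun ij hij => ?_
  rw [Finset.mem_antidiagonal] at hij
  by_cases h : ij.1 < δ
  · rw [hx _ h, zero_mul]
  · rw [hy ij.2 (by linarith [hij.2.2]), mul_zero]

theorem Fil_HP {δ : ℚ} (d : Derivation ℚ S S) (n : ℕ) {x : HahnSeries ℚ S} (hx : x ∈ Fil δ) :
    HP d n x ∈ Fil δ := by
  intro γ hγ
  rw [HP_coeff, hx γ hγ, map_zero]

theorem Fil_HE {δ : ℚ} (d : Derivation ℚ S S) (n : ℕ) {x : HahnSeries ℚ S} (hx : x ∈ Fil δ) :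
    HE d n x ∈ Fil δ :=
  (Fil δ).smul_mem _ (Fil_HP d n hx)

theorem Fil_hb (γ : ℚ) {δ : ℚ} {x : HahnSeries ℚ S} (hx : x ∈ Fil δ) : hb γ * x ∈ Fil (γ + δ) := by
  intro β hβ
  rw [hb_coeff]
  exact hx _ (by linarith)

/-- Every Hahn series lies in some `Fil δ`. -/
theorem exists_Fil (x : HahnSeries ℚ S) : ∃ δ : ℚ, x ∈ Fil δ :=
  ⟨x.order, fun _ h => coeff_eq_zero_of_lt_order h⟩

theorem eq_of_forall_Fil {x y : HahnSeries ℚ S} (h : ∀ N : ℕ, ∃ δ : ℚ, (N : ℚ) ≤ δ ∧ x - y ∈ Fil δ) :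
    x = y := by
  ext γ
  obtain ⟨N, hN⟩ := exists_nat_gt γ
  obtain ⟨δ, h1, h2⟩ := h N
  have := h2 γ (lt_of_lt_of_le hN h1)
  rw [coeff_sub] at this
  exact sub_eq_zero.mp this

end Pool.Agent.K7.H66.ML
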