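import Mathlib

/-!
# Interface for the algebraically closed division ring

`DP d1 d2 G`: `G : S → S` is a differential polynomial function of the differential field
`(S, d1, d2)`.
-/

namespace Pool.Agent.K7.H66.ML

/-- Differential polynomial functions `S → S` for two derivations `d1`, `d2` of `S`: the smallest
class of functions containing the constants and the identity and closed under sums, products and
`d1`, `d2`. -/
inductive DP {S : Type*} [Field S] [CharZero S] (d1 d2 : Derivation ℚ S S) : (S → S) → Prop
  | const (c : S) : DP d1 d2 (fun _ => c)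
  | ident : DP d1 d2 (fun w => w)
  | add {f g : S → S} : DP d1 d2 f → DP d1 d2 g → DP d1 d2 (fun w => f w + g w)
  | mul {f g : S → S} : DP d1 d2 f → DP d1 d2 g → DP d1 d2 (fun w => f w * g w)
  | der1 {f : S → S} : DP d1 d2 f → DP d1 d2 (fun w => d1 (f w))
  | der2 {f : S → S} : DP d1 d2 f → DP d1 d2 (fun w => d2 (f w))

/-- `(S, d1, d2)` is a field of characteristic zero with two commuting derivations in which every
nonconstant differential polynomial function has a zero, and in which there are `t`, `u` with
`d1 t = 1`, `d2 t = 0`, `d1 u = 0`, `d2 u = 1`. -/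
structure IsDC {S : Type*} [Field S] [CharZero S] (d1 d2 : Derivation ℚ S S) : Prop where
  comm : ∀ x, d1 (d2 x) = d2 (d1 x)
  coords : ∃ t u : S, d1 t = 1 ∧ d2 t = 0 ∧ d1 u = 0 ∧ d2 u = 1
  zero : ∀ G : S → S, DP d1 d2 G → (∃ a b, G a ≠ G b) → ∃ w, G w = 0

end Pool.Agent.K7.H66.ML
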