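import Pool.Agent.K7.H66.ML.Defs
import Pool.Agent.K7.H99.DC.Solve

/-!
# A differentially closed field (existence)

`exists_dc` : there is a field of characteristic zero with two commuting derivations in which every
nonconstant differential polynomial function of one unknown has a zero.
-/

namespace Pool.Agent.K7.H66.ML

open MvPolynomial Pool.Agent.K7.H99.DC

section Finish

variable {S : Type} [Field S] [CharZero S]

/-- jets -/
def jetS (d1 d2 : Derivation ℚ S S) (w : S) (v : ℕ × ℕ) : S := d2^[v.2] (d1^[v.1] w)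

theorem finish (ι : A →+* ℂ) (y : ℕ × ℕ → ℂ) (hy : Function.Injective (eval₂Hom ι y))
    (φ : ℕ → A →+* S) (D1 D2 : S → S)
    (h1 : ∀ i a, φ (i + 1) (T p1 p2 ι a) = φ i a) (h2 : ∀ s, ∃ i a, φ i a = s)
    (h3 : ∀ i a, D1 (φ i a) = φ i (p1 a)) (h4 : ∀ i a, D2 (φ i a) = φ i (p2 a)) :
    ∃ d1 d2 : Derivation ℚ S S, IsDC d1 d2 := by
  set τ := T p1 p2 ι with hτ
  have hpow : ∀ k i, (φ (i + k)).comp (τ ^ k) = φ i := by
    intro k
    induction k with
    | zero => intro i; ext a : 1; simp
    | succ k ih =>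
      intro i
      ext a : 1
      rw [pow_succ', RingHom.coe_comp, Function.comp_apply, RingHom.coe_mul, Function.comp_apply,
        ← add_assoc, h1]
      exact congrArg (fun g => g a) (ih i)
  have hpow' : ∀ k i a, φ i a = φ (i + k) ((τ ^ k) a) := fun k i a =>
    (congrArg (fun g => g a) (hpow k i)).symm
  have hcommon : ∀ s t : S, ∃ i a b, φ i a = s ∧ φ i b = t := by
    intro s t
    obtain ⟨i, a, rfl⟩ := h2 s
    obtain ⟨j, b, rfl⟩ := h2 t
    exact ⟨i + j, (τ ^ j) a, (τ ^ i) b, (hpow' j i a).symm, by rw [add_comm i j, ← hpow' i j b]⟩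
  let d1 : Derivation ℚ S S := mkDer D1
    (by
      intro s t
      obtain ⟨i, a, b, rfl, rfl⟩ := hcommon s t
      rw [← map_add, h3, h3, h3, map_add, map_add])
    (by
      intro s t
      obtain ⟨i, a, b, rfl, rfl⟩ := hcommon s t
      rw [← map_mul, h3, h3, h3, Derivation.leibniz, map_add, smul_eq_mul, smul_eq_mul, map_mul,
        map_mul])
  let d2 : Derivation ℚ S S := mkDer D2
    (by
      intro s t
      obtain ⟨i, a, b, rfl, rfl⟩ := hcommon s t
      rw [← map_add, h4, h4, h4, map_add, map_add])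
    (by
      intro s t
      obtain ⟨i, a, b, rfl, rfl⟩ := hcommon s t
      rw [← map_mul, h4, h4, h4, Derivation.leibniz, map_add, smul_eq_mul, smul_eq_mul, map_mul,
        map_mul])
  have e1 : ∀ i a, d1 (φ i a) = φ i (p1 a) := h3
  have e2 : ∀ i a, d2 (φ i a) = φ i (p2 a) := h4
  have hcomm : ∀ x, d1 (d2 x) = d2 (d1 x) := by
    intro x
    obtain ⟨i, a, rfl⟩ := h2 x
    rw [e2, e1, e1, e2, p_comm]
  -- derivation of evaluations
  have hjet1 : ∀ w v, d1 (jetS d1 d2 w v) = jetS d1 d2 w (v + (1, 0)) := by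
    intro w v
    simp only [jetS, Prod.fst_add, Prod.snd_add, add_zero]
    rw [Function.iterate_succ_apply' d1]
    generalize d1^[v.1] w = z
    induction v.2 with
    | zero => rfl
    | succ n ih => rw [Function.iterate_succ_apply', Function.iterate_succ_apply', hcomm, ih]
  have hjet2 : ∀ w v, d2 (jetS d1 d2 w v) = jetS d1 d2 w (v + (0, 1)) := by
    intro w v
    simp only [jetS, Prod.fst_add, Prod.snd_add, add_zero]
    rw [Function.iterate_succ_apply' d2]
  have hder1 : ∀ N w P, d1 (eval₂Hom (φ N) (jetS d1 d2 w) P) =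
      eval₂Hom (φ N) (jetS d1 d2 w) (jetDer p1 (1, 0) P) := by
    intro N w P
    induction P using MvPolynomial.induction_on with
    | C a => rw [jetDer_C, eval₂Hom_C, eval₂Hom_C, e1]
    | add p q hp hq => rw [map_add, map_add, hp, hq, map_add, map_add]
    | mul_X p v hp =>
      rw [map_mul, Derivation.leibniz, Derivation.leibniz, map_add, hp, eval₂Hom_X', jetDer_X,
        hjet1]
      simp only [smul_eq_mul, map_mul, eval₂Hom_X']
  have hder2 : ∀ N w P, d2 (eval₂Hom (φ N) (jetS d1 d2 w) P) =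
      eval₂Hom (φ N) (jetS d1 d2 w) (jetDer p2 (0, 1) P) := by
    intro N w P
    induction P using MvPolynomial.induction_on with
    | C a => rw [jetDer_C, eval₂Hom_C, eval₂Hom_C, e2]
    | add p q hp hq => rw [map_add, map_add, hp, hq, map_add, map_add]
    | mul_X p v hp =>
      rw [map_mul, Derivation.leibniz, Derivation.leibniz, map_add, hp, eval₂Hom_X', jetDer_X,
        hjet2]
      simp only [smul_eq_mul, map_mul, eval₂Hom_X']
  have hstage : ∀ N k w P, eval₂Hom (φ N) (jetS d1 d2 w) P =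
      eval₂Hom (φ (N + k)) (jetS d1 d2 w) (MvPolynomial.map (τ ^ k) P) := by
    intro N k w P
    rw [eval₂Hom_map_hom, hpow]
  have hstage' : ∀ N k w P, eval₂Hom (φ N) (jetS d1 d2 w) P =
      eval₂Hom (φ (k + N)) (jetS d1 d2 w) (MvPolynomial.map (τ ^ k) P) := by
    intro N k w P
    rw [hstage N k, add_comm]
  have hDP : ∀ G, DP d1 d2 G → ∃ N P, ∀ w, G w = eval₂Hom (φ N) (jetS d1 d2 w) P := by
    intro G hG
    induction hG with
    | const c =>
      obtain ⟨i, a, rfl⟩ := h2 c
      exact ⟨i, C a, fun w => by rw [eval₂Hom_C]⟩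
    | ident => exact ⟨0, X (0, 0), fun w => by rw [eval₂Hom_X']; rfl⟩
    | add _ _ ihf ihg =>
      obtain ⟨N, P, hP⟩ := ihf
      obtain ⟨M, Q, hQ⟩ := ihg
      exact ⟨N + M, MvPolynomial.map (τ ^ M) P + MvPolynomial.map (τ ^ N) Q, fun w => by
        beta_reduce
        rw [map_add, ← hstage, ← hstage', hP, hQ]⟩
    | mul _ _ ihf ihg =>
      obtain ⟨N, P, hP⟩ := ihf
      obtain ⟨M, Q, hQ⟩ := ihg
      exact ⟨N + M, MvPolynomial.map (τ ^ M) P * MvPolynomial.map (τ ^ N) Q, fun w => by
        beta_reduce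
        rw [map_mul, ← hstage, ← hstage', hP, hQ]⟩
    | der1 _ ihf =>
      obtain ⟨N, P, hP⟩ := ihf
      exact ⟨N, jetDer p1 (1, 0) P, fun w => by beta_reduce; rw [hP, hder1]⟩
    | der2 _ ihf =>
      obtain ⟨N, P, hP⟩ := ihf
      exact ⟨N, jetDer p2 (0, 1) P, fun w => by beta_reduce; rw [hP, hder2]⟩
  refine ⟨d1, d2, hcomm, ?_, ?_⟩
  · have hX1 : p1 (PowerSeries.X : A) = 1 := by
      change PowerSeries.derivative _ _ = _
      exact PowerSeries.derivative_X
    have hX2 : p2 (PowerSeries.X : A) = 0 := by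
      ext n : 1
      rw [coeff_p2, PowerSeries.coeff_X, map_zero]
      split_ifs
      · exact PowerSeries.derivative_one
      · exact map_zero _
    have hY1 : p1 (PowerSeries.C (PowerSeries.X : PowerSeries ℂ) : A) = 0 := by
      change PowerSeries.derivative _ _ = _
      exact PowerSeries.derivative_C
    have hY2 : p2 (PowerSeries.C (PowerSeries.X : PowerSeries ℂ) : A) = 1 := by
      ext n : 1
      rw [coeff_p2, PowerSeries.coeff_C, PowerSeries.coeff_one]
      split_ifs
      · exact PowerSeries.derivative_X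
      · exact map_zero _
    refine ⟨φ 0 PowerSeries.X, φ 0 (PowerSeries.C PowerSeries.X), ?_, ?_, ?_, ?_⟩
    · rw [e1, hX1, map_one]
    · rw [e2, hX2, map_zero]
    · rw [e1, hY1, map_zero]
    · rw [e2, hY2, map_one]
  · intro G hG hne
    obtain ⟨N, P, hP⟩ := hDP G hG
    have hPC : ∀ a, P ≠ C a := by
      rintro a rfl
      obtain ⟨s, t, hst⟩ := hne
      apply hst
      rw [hP, hP, eval₂Hom_C, eval₂Hom_C]
    obtain ⟨b, hb⟩ := solve ι y hy P hPC
    refine ⟨φ (N + 1) b, ?_⟩
    rw [hP]
    have hφ : φ N = (φ (N + 1)).comp τ := by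
      ext a : 1
      exact (h1 N a).symm
    have hj : jetS d1 d2 (φ (N + 1) b) = fun v => φ (N + 1) (p2^[v.2] (p1^[v.1] b)) := by
      funext v
      simp only [jetS]
      have k1 : ∀ m x, d1^[m] (φ (N + 1) x) = φ (N + 1) (p1^[m] x) := by
        intro m x
        induction m with
        | zero => rfl
        | succ m ih => rw [Function.iterate_succ_apply', ih, e1, Function.iterate_succ_apply']
      have k2 : ∀ m x, d2^[m] (φ (N + 1) x) = φ (N + 1) (p2^[m] x) := by
        intro m x
        induction m with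
        | zero => rfl
        | succ m ih => rw [Function.iterate_succ_apply', ih, e2, Function.iterate_succ_apply']
      rw [k1, k2]
    have key : (eval₂Hom ((φ (N + 1)).comp τ) fun v : ℕ × ℕ =>
          φ (N + 1) (p2^[v.2] (p1^[v.1] b))) =
        (φ (N + 1)).comp (eval₂Hom τ (fun v : ℕ × ℕ => p2^[v.2] (p1^[v.1] b))) := by
      apply MvPolynomial.ringHom_ext
      · intro a; simp
      · intro v; simp
    rw [hφ, hj, key, RingHom.coe_comp, Function.comp_apply, hb, map_zero]

end Finish

theorem exists_dc : ∃ (S : Type) (_ : Field S) (_ : CharZero S) (d1 d2 : Derivation ℚ S S),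
    IsDC d1 d2 := by
  obtain ⟨ι, y, hy⟩ := exists_embed
  have hι : Function.Injective ι := by
    intro a b hab
    have := hy (a₁ := C a) (a₂ := C b) (by simpa using hab)
    exact MvPolynomial.C_injective _ _ this
  have hτ : Function.Injective (T p1 p2 ι) := by
    intro a b hab
    apply hι
    rw [← const_T p1 p2 ι a, hab, const_T]
  have hunit : ∀ a : A, a ≠ 0 → IsUnit (T p1 p2 ι a) := by
    intro a ha
    rw [PowerSeries.isUnit_iff_constantCoeff, PowerSeries.isUnit_iff_constantCoeff, isUnit_iff_ne_zero,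
      ← PowerSeries.coeff_zero_eq_constantCoeff_apply, ← PowerSeries.coeff_zero_eq_constantCoeff_apply,
      const_T]
    intro h0
    exact ha (hι (by rw [h0, map_zero]))
  obtain ⟨S, hS, φ, D1, D2, h1, h2, hinj, h3, h4⟩ := exists_colim (T p1 p2 ι) hτ p1 p2
    (fun a => p1_T _ _ _ a) (fun a => p2_T _ _ _ p_comm a)
  have hfield : IsField S :=
    { exists_pair_ne := ⟨φ 0 0, φ 0 1, fun h => zero_ne_one (hinj 0 h)⟩
      mul_comm := mul_comm
      mul_inv_cancel := by
        intro s hs
        obtain ⟨i, a, rfl⟩ := h2 s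
        have ha : a ≠ 0 := by rintro rfl; exact hs (map_zero _)
        obtain ⟨c, hc⟩ := (hunit a ha).exists_right_inv
        refine ⟨φ (i + 1) c, ?_⟩
        rw [← h1, ← map_mul, hc, map_one] }
  let F : Field S := hfield.toField
  have hchar : CharZero S := by
    refine ⟨fun m n hmn => ?_⟩
    have hm : ∀ k : ℕ, (k : S) = φ 0 (k : A) := fun k => (map_natCast (φ 0) k).symm
    have h5 : (m : A) = (n : A) := hinj 0 (by rw [← hm, ← hm]; exact hmn)
    exact_mod_cast h5
  exact ⟨S, F, hchar, finish ι y hy φ D1 D2 h1 h2 h3 h4⟩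

end Pool.Agent.K7.H66.ML
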