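import Pool.Agent.K7.H66.ML.Ring

/-!
# Finite determination of coefficients
-/

namespace Pool.Agent.K7.H66.ML

open HahnSeries Finset
open scoped Pointwise

set_option linter.unusedSectionVars false

variable {S : Type*} [Field S] [CharZero S]

/-- Finitary differential polynomial functionals of a Hahn series. -/
inductive FD (D : PD S) : (HahnSeries ℚ S → S) → Prop
  | const (c : S) : FD D (fun _ => c)
  | coeff (γ : ℚ) : FD D (fun z => z.coeff γ)
  | add {f g : HahnSeries ℚ S → S} : FD D f → FD D g → FD D (fun z => f z + g z)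
  | mul {f g : HahnSeries ℚ S → S} : FD D f → FD D g → FD D (fun z => f z * g z)
  | der1 {f : HahnSeries ℚ S → S} : FD D f → FD D (fun z => D.d1 (f z))
  | der2 {f : HahnSeries ℚ S → S} : FD D f → FD D (fun z => D.d2 (f z))

variable {D : PD S}

theorem FD.sum {ι : Type*} (s : Finset ι) (f : ι → HahnSeries ℚ S → S)
    (h : ∀ i ∈ s, FD D (f i)) : FD D (fun z => ∑ i ∈ s, f i z) := by
  classical
  induction s using Finset.induction with
  | empty => simpa using FD.const 0
  | insert a s ha ih =>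
    simp only [Finset.sum_insert ha]
    exact FD.add (h a (mem_insert_self a s)) (ih fun i hi => h i (mem_insert_of_mem hi))

theorem FD.dp1 {f : HahnSeries ℚ S → S} (h : FD D f) (n : ℕ) : FD D (fun z => dp D.d1 n (f z)) := by
  induction n with
  | zero => simpa only [dp_zero] using h
  | succ n ih => simpa only [dp_succ] using FD.der1 ih

theorem FD.dp2 {f : HahnSeries ℚ S → S} (h : FD D f) (n : ℕ) : FD D (fun z => dp D.d2 n (f z)) := by
  induction n with
  | zero => simpa only [dp_zero] using h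
  | succ n ih => simpa only [dp_succ] using FD.der2 ih

theorem FD.smul {f : HahnSeries ℚ S → S} (h : FD D f) (q : ℚ) : FD D (fun z => q • f z) := by
  simpa only [Algebra.smul_def] using FD.mul (FD.const (algebraMap ℚ S q)) h

/-- An element of `FD` depends only on finitely many coefficients. -/
theorem FD.fin {f : HahnSeries ℚ S → S} (h : FD D f) :
    ∃ F : Finset ℚ, ∀ z z' : HahnSeries ℚ S, (∀ γ ∈ F, z.coeff γ = z'.coeff γ) → f z = f z' := by
  classical
  induction h with
  | const c => exact ⟨∅, fun _ _ _ => rfl⟩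
  | coeff γ => exact ⟨{γ}, fun z z' hz => hz γ (mem_singleton_self γ)⟩
  | add _ _ h1 h2 =>
    obtain ⟨F, hF⟩ := h1
    obtain ⟨F', hF'⟩ := h2
    refine ⟨F ∪ F', fun z z' hz => ?_⟩
    change _ + _ = _ + _
    rw [hF z z' fun γ hγ => hz γ (mem_union_left _ hγ),
      hF' z z' fun γ hγ => hz γ (mem_union_right _ hγ)]
  | mul _ _ h1 h2 =>
    obtain ⟨F, hF⟩ := h1
    obtain ⟨F', hF'⟩ := h2
    refine ⟨F ∪ F', fun z z' hz => ?_⟩
    change _ * _ = _ * _
    rw [hF z z' fun γ hγ => hz γ (mem_union_left _ hγ),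
      hF' z z' fun γ hγ => hz γ (mem_union_right _ hγ)]
  | der1 _ h1 =>
    obtain ⟨F, hF⟩ := h1
    exact ⟨F, fun z z' hz => congrArg D.d1 (hF z z' hz)⟩
  | der2 _ h1 =>
    obtain ⟨F, hF⟩ := h1
    exact ⟨F, fun z z' hz => congrArg D.d2 (hF z z' hz)⟩

/-- Restriction of a functional to `S`. -/
theorem FD.toDP {f : HahnSeries ℚ S → S} (h : FD D f) :
    DP D.d1 D.d2 (fun w => f (single 0 w)) := by
  induction h with
  | const c => exact DP.const c
  | coeff γ =>
    by_cases hγ : γ = 0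
    · subst hγ
      simpa only [coeff_single_same] using DP.ident
    · simp only [coeff_single_of_ne hγ]
      exact DP.const 0
  | add _ _ h1 h2 => exact DP.add h1 h2
  | mul _ _ h1 h2 => exact DP.mul h1 h2
  | der1 _ h1 => exact DP.der1 h1
  | der2 _ h1 => exact DP.der2 h1

theorem exists_lower {U : Set ℚ} (h : U.IsPWO) : ∃ α : ℚ, ∀ x ∈ U, α ≤ x := by
  rcases U.eq_empty_or_nonempty with rfl | hne
  · exact ⟨0, fun x hx => hx.elim⟩
  · exact ⟨h.isWF.min hne, fun x hx => Set.IsWF.min_le h.isWF hne hx⟩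

theorem mem_Fil_of_support {U : Set ℚ} {α : ℚ} (hα : ∀ x ∈ U, α ≤ x) {x : HahnSeries ℚ S}
    (hx : x.support ⊆ U) : x ∈ Fil α := by
  intro γ hγ
  by_contra h
  exact absurd (hα γ (hx h)) (not_le.mpr hγ)

/-- Coefficients of generalized polynomial functions are finitary differential polynomial
functionals, uniformly for series supported in a well-ordered set. -/
theorem GP.toFD {f : SR D → SR D} (h : GP f) (Z : Set ℚ) (hZ : Z.IsPWO) :
    ∃ U : Set ℚ, U.IsPWO ∧
      (∀ z : SR D, (toH z).support ⊆ Z → (toH (f z)).support ⊆ U) ∧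
      ∀ δ : ℚ, ∃ Φ : HahnSeries ℚ S → S, FD D Φ ∧
        ∀ z : SR D, (toH z).support ⊆ Z → (toH (f z)).coeff δ = Φ (toH z) := by
  induction h with
  | const c =>
    exact ⟨(toH c).support, (toH c).isPWO_support, fun _ _ => subset_rfl,
      fun δ => ⟨fun _ => (toH c).coeff δ, FD.const _, fun _ _ => rfl⟩⟩
  | ident =>
    exact ⟨Z, hZ, fun _ h => h, fun δ => ⟨fun z => z.coeff δ, FD.coeff δ, fun _ _ => rfl⟩⟩
  | @add f g _ _ h1 h2 =>
    obtain ⟨U, hU, hU1, hU2⟩ := h1
    obtain ⟨W, hW, hW1, hW2⟩ := h2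
    refine ⟨U ∪ W, hU.union hW, fun z hz => ?_, fun δ => ?_⟩
    · refine (support_add_subset _ _).trans (Set.union_subset_union (hU1 z hz) (hW1 z hz))
    · obtain ⟨Φ, hΦ, hΦ'⟩ := hU2 δ
      obtain ⟨Ψ, hΨ, hΨ'⟩ := hW2 δ
      refine ⟨_, FD.add hΦ hΨ, fun z hz => ?_⟩
      rw [← hΦ' z hz, ← hΨ' z hz, ← coeff_add]
      rfl
  | @mul f g _ _ h1 h2 =>
    obtain ⟨U, hU, hU1, hU2⟩ := h1
    obtain ⟨W, hW, hW1, hW2⟩ := h2
    refine ⟨Set.range (Nat.cast : ℕ → ℚ) + (U + W), natRange_isPWO.add (hU.add hW),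
      fun z hz => ?_, fun δ => ?_⟩
    · have h3 : (toH (f z * g z)).support ⊆ ⋃ n : ℕ, (tm D n (toH (f z)) (toH (g z))).support :=
        SummableFamily.support_hsum_subset
      refine h3.trans (Set.iUnion_subset fun n => (tm_support D n _ _).trans ?_)
      exact Set.add_subset_add subset_rfl (Set.add_subset_add (hU1 z hz) (hW1 z hz))
    · obtain ⟨α, hα⟩ := exists_lower hU
      obtain ⟨β, hβ⟩ := exists_lower hW
      obtain ⟨N, hN⟩ := exists_nat_gt (δ - α - β)
      choose Φ hΦ hΦ' using hU2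
      choose Ψ hΨ hΨ' using hW2
      refine ⟨fun z => ∑ n ∈ range N, ∑ ij ∈ Finset.antidiagonal hU hW (δ - n),
        dp D.d1 n (Φ ij.1 z) * (((n.factorial : ℚ)⁻¹) • dp D.d2 n (Ψ ij.2 z)),
        FD.sum _ _ fun n _ => FD.sum _ _ fun ij _ => FD.mul (FD.dp1 (hΦ _) n)
          (FD.smul (FD.dp2 (hΨ _) n) _), fun z hz => ?_⟩
      change (star D (toH (f z)) (toH (g z))).coeff δ = _
      rw [star_coeff D _ _ (mem_Fil_of_support hα (hU1 z hz)) (mem_Fil_of_support hβ (hW1 z hz))
        (show δ < α + β + N by linarith), coeff_sum]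
      refine sum_congr rfl fun n _ => ?_
      rw [tm, hb_coeff, coeff_mul_left' hU ((HP_support _ _ _).trans (hU1 z hz)),
        ← Finset.sum_subset (s₁ := Finset.antidiagonal hU (HE D.d2 n (toH (g z))).isPWO_support
          (δ - n)) (s₂ := Finset.antidiagonal hU hW (δ - n))]
      · refine sum_congr rfl fun ij _ => ?_
        rw [HP_coeff, HE_coeff, hΦ' _ z hz, hΨ' _ z hz]
      · intro ij hij
        rw [Finset.mem_antidiagonal] at hij ⊢
        exact ⟨hij.1, hW1 z hz (HE_support _ _ _ hij.2.1), hij.2.2⟩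
      · intro ij hij hij'
        rw [Finset.mem_antidiagonal] at hij hij'
        have h0 : (HE D.d2 n (toH (g z))).coeff ij.2 = 0 := by
          by_contra h4
          exact hij' ⟨hij.1, h4, hij.2.2⟩
        rw [HE_coeff, hΨ' _ z hz] at h0
        rw [h0, mul_zero]

end Pool.Agent.K7.H66.ML
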