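import Mathlib

/-!
# Generalized polynomial functions of a ring
-/

namespace Pool.Agent.K7.H66.ML

open Finset

/-- Generalized polynomial functions of a ring. -/
inductive GP {R : Type*} [Ring R] : (R → R) → Prop
  | const (c : R) : GP (fun _ => c)
  | ident : GP (fun z => z)
  | add {f g : R → R} : GP f → GP g → GP (fun z => f z + g z)
  | mul {f g : R → R} : GP f → GP g → GP (fun z => f z * g z)

theorem GP.sum {R : Type*} [Ring R] {ι : Type*} (s : Finset ι) (f : ι → R → R)
    (h : ∀ i ∈ s, GP (f i)) : GP (fun z => ∑ i ∈ s, f i z) := by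
  classical
  induction s using Finset.induction with
  | empty => simpa using GP.const 0
  | insert a s ha ih =>
    simp only [Finset.sum_insert ha]
    exact GP.add (h a (mem_insert_self a s)) (ih fun i hi => h i (mem_insert_of_mem hi))

theorem GP.comp_affine {R : Type*} [Ring R] {f : R → R} (h : GP f) (y c : R) :
    GP (fun z => f (y + c * z)) := by
  induction h with
  | const d => exact GP.const d
  | ident => exact GP.add (GP.const y) (GP.mul (GP.const c) GP.ident)
  | add _ _ h1 h2 => exact GP.add h1 h2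
  | mul _ _ h1 h2 => exact GP.mul h1 h2

open Polynomial in
/-- Expansion of a generalized polynomial function along central elements. -/
theorem GP.expand {R : Type*} [Ring R] {f : R → R} (h : GP f) (y : R) :
    ∃ (n : ℕ) (p : R → R[X]), (∀ z, (p z).natDegree ≤ n) ∧ (∀ j, GP (fun z => (p z).coeff j)) ∧
      ∀ z κ : R, (∀ a, a * κ = κ * a) → f (y + κ * z) = (p z).eval κ := by
  induction h with
  | const c =>
    refine ⟨0, fun _ => C c, fun _ => by simp, fun j => ?_, fun z κ _ => by simp⟩
    simp only [coeff_C]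
    exact GP.const _
  | ident =>
    refine ⟨1, fun z => C y + C z * X, fun z => ?_, fun j => ?_, fun z κ hκ => ?_⟩
    · exact natDegree_add_le_of_degree_le (by simp) ((natDegree_C_mul_le z X).trans natDegree_X_le)
    · rcases j with _ | _ | j
      · simpa using GP.const y
      · simpa [coeff_C] using GP.ident
      · simpa [coeff_C, coeff_X] using GP.const 0
    · rw [eval_add, eval_C, eval_C_mul, eval_X, hκ z]
  | @add f g _ _ h1 h2 =>
    obtain ⟨n1, p1, a1, b1, c1⟩ := h1
    obtain ⟨n2, p2, a2, b2, c2⟩ := h2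
    refine ⟨max n1 n2, fun z => p1 z + p2 z, fun z => ?_, fun j => ?_, fun z κ hκ => ?_⟩
    · exact natDegree_add_le_of_degree_le ((a1 z).trans (le_max_left _ _))
        ((a2 z).trans (le_max_right _ _))
    · simp only [coeff_add]
      exact GP.add (b1 j) (b2 j)
    · change f (y + κ * z) + g (y + κ * z) = eval κ (p1 z + p2 z)
      rw [eval_add, c1 z κ hκ, c2 z κ hκ]
  | @mul f g _ _ h1 h2 =>
    obtain ⟨n1, p1, a1, b1, c1⟩ := h1
    obtain ⟨n2, p2, a2, b2, c2⟩ := h2
    refine ⟨n1 + n2, fun z => p1 z * p2 z, fun z => ?_, fun j => ?_, fun z κ hκ => ?_⟩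
    · exact natDegree_mul_le.trans (add_le_add (a1 z) (a2 z))
    · simp only [coeff_mul]
      exact GP.sum _ (fun (ij : ℕ × ℕ) z => (p1 z).coeff ij.1 * (p2 z).coeff ij.2)
        fun ij _ => GP.mul (b1 ij.1) (b2 ij.2)
    · change f (y + κ * z) * g (y + κ * z) = eval κ (p1 z * p2 z)
      rw [c1 z κ hκ, c2 z κ hκ, eval, eval, eval, eval₂_mul_noncomm _ _ fun k => ?_]
      exact hκ _

/-- A vanishing lemma of Vandermonde type. -/
theorem vand {M : Type*} [AddCommGroup M] [Module ℚ M] (V : Submodule ℚ M) (n : ℕ) :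
    ∀ x : ℕ → M, (∀ q : ℚ, ∑ j ∈ range n, q ^ j • x j ∈ V) → ∀ j < n, x j ∈ V := by
  induction n with
  | zero => intro x _ j hj; omega
  | succ n ih =>
    intro x h
    have h1 : ∀ q : ℚ, ∑ j ∈ range n, q ^ j • (((2 : ℚ) ^ j - 2 ^ n) • x j) ∈ V := by
      intro q
      have h2 := V.sub_mem (h (2 * q)) (V.smul_mem ((2 : ℚ) ^ n) (h q))
      have h3 : ∑ j ∈ range (n + 1), (2 * q) ^ j • x j - (2 : ℚ) ^ n •
          ∑ j ∈ range (n + 1), q ^ j • x j =
          ∑ j ∈ range n, q ^ j • (((2 : ℚ) ^ j - 2 ^ n) • x j) := by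
        rw [Finset.smul_sum, ← Finset.sum_sub_distrib, Finset.sum_range_succ]
        have h4 : (2 * q) ^ n • x n - (2 : ℚ) ^ n • q ^ n • x n = 0 := by
          rw [smul_smul, mul_pow, sub_self]
        rw [h4, add_zero]
        refine sum_congr rfl fun j _ => ?_
        rw [smul_smul, smul_smul, ← sub_smul]
        congr 1
        ring
      rwa [h3] at h2
    have h5 := ih _ h1
    have h6 : ∀ j < n, x j ∈ V := by
      intro j hj
      have h7 := h5 j hj
      have h8 : (2 : ℚ) ^ j - 2 ^ n ≠ 0 := by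
        have : (2 : ℚ) ^ j < 2 ^ n := pow_lt_pow_right₀ (by norm_num) hj
        exact (sub_neg.mpr this).ne
      have h9 := V.smul_mem ((2 : ℚ) ^ j - 2 ^ n)⁻¹ h7
      rwa [smul_smul, inv_mul_cancel₀ h8, one_smul] at h9
    intro j hj
    rcases Nat.lt_succ_iff_lt_or_eq.mp hj with h10 | h10
    · exact h6 j h10
    · subst h10
      have h11 := h 1
      rw [Finset.sum_range_succ] at h11
      simp only [one_pow, one_smul] at h11
      exact (V.add_mem_iff_right (V.sum_mem fun i hi => h6 i (mem_range.1 hi))).mp h11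

end Pool.Agent.K7.H66.ML
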