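import Pool.Agent.K7.H66.ML.Defs

/-!
# The direct limit of a differential ring along an endomorphism
-/

namespace Pool.Agent.K7.H66.ML

open MvPolynomial

section lim

variable {A : Type} [CommRing A] (τ : A →+* A)

theorem rh_mul (f g : A →+* A) (x : A) : (f * g) x = f (g x) := rfl

/-- The transition maps of the constant tower along `τ`. -/
def ff : ∀ i j : ℕ, i ≤ j → (A →+* A) := fun i j _ => τ ^ (j - i)

instance : DirectedSystem (fun _ : ℕ => A) (fun i j h => (ff τ i j h : A → A)) where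
  map_self i x := by simp [ff]
  map_map k j i hij hjk x := by
    simp only [ff]
    rw [← rh_mul, ← pow_add]
    congr 2
    omega

/-- The direct limit of `A → A → A → …` along `τ`. -/
abbrev Lim : Type := DirectLimit (fun _ : ℕ => A) (ff τ)

/-- The maps into the limit. -/
noncomputable def mkL (n : ℕ) : A →+* Lim τ := DirectLimit.Ring.of (fun _ : ℕ => A) (ff τ) n

theorem mkL_tau (n : ℕ) (a : A) : mkL τ (n + 1) (τ a) = mkL τ n a := by
  have h := DirectLimit.mk_apply (f := ff τ) n (n + 1) a (Nat.le_succ n)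
  simpa [ff, mkL] using h

theorem mkL_tau_pow (n k : ℕ) (a : A) : mkL τ (n + k) ((τ ^ k) a) = mkL τ n a := by
  induction k with
  | zero => simp
  | succ k ih =>
    rw [pow_succ', rh_mul, ← add_assoc, mkL_tau, ih]

theorem exists_mkL (x : Lim τ) : ∃ n a, x = mkL τ n a := by
  obtain ⟨n, a, h⟩ := DirectLimit.exists_eq_mk (ff τ) x
  exact ⟨n, a, h⟩

theorem exists_mkL₂ (x y : Lim τ) : ∃ n a b, x = mkL τ n a ∧ y = mkL τ n b := by
  obtain ⟨n, a, b, h, h'⟩ := DirectLimit.exists_eq_mk₂ (ff τ) x y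
  exact ⟨n, a, b, h, h'⟩

/-- The derivation induced on the limit. -/
def limMap (δ : A → A) (h : ∀ a, τ (δ a) = δ (τ a)) : Lim τ → Lim τ :=
  DirectLimit.map (ff τ) (ff τ) (fun _ => δ) (fun i j hij x => by
    have : ∀ k (x : A), (τ ^ k) (δ x) = δ ((τ ^ k) x) := by
      intro k
      induction k with
      | zero => intro x; simp
      | succ k ih => intro x; rw [pow_succ, rh_mul, rh_mul, h, ih]
    exact this _ x)

theorem limMap_mkL (δ : A → A) (h : ∀ a, τ (δ a) = δ (τ a)) (n : ℕ) (a : A) :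
    limMap τ δ h (mkL τ n a) = mkL τ n (δ a) := rfl

end lim

/-- The jets of an element. -/
def jet {B : Type*} (δ1 δ2 : B → B) (b : B) : ℕ × ℕ → B := fun ij => δ1^[ij.1] (δ2^[ij.2] b)

theorem exists_dc_of_tower {A : Type} [CommRing A] [Algebra ℚ A] [Nontrivial A]
    (δ1 δ2 : Derivation ℚ A A) (hcomm : ∀ x, δ1 (δ2 x) = δ2 (δ1 x)) (τ : A →+* A)
    (hunit : ∀ a, a ≠ 0 → IsUnit (τ a)) (hinj : Function.Injective τ)
    (h1 : ∀ a, τ (δ1 a) = δ1 (τ a)) (h2 : ∀ a, τ (δ2 a) = δ2 (τ a))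
    (hcoord : ∃ t u : A, δ1 t = 1 ∧ δ2 t = 0 ∧ δ1 u = 0 ∧ δ2 u = 1)
    (hroot : ∀ P : MvPolynomial (ℕ × ℕ) A, P ∉ Set.range (C : A → MvPolynomial (ℕ × ℕ) A) →
      ∃ b : A, eval₂ τ (jet δ1 δ2 b) P = 0) :
    ∃ (S : Type) (_ : Field S) (_ : CharZero S) (d1 d2 : Derivation ℚ S S), IsDC d1 d2 := by
  classical
  -- the limit is a field
  have hnt : Nontrivial (Lim τ) := by
    have h0 : mkL τ 0 (0 : A) ≠ mkL τ 0 1 := by
      intro h
      have hinj' : ∀ i j (hij : i ≤ j), Function.Injective (ff τ i j hij) := by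
        intro i j hij
        have : ∀ k, Function.Injective (τ ^ k : A →+* A) := by
          intro k
          induction k with
          | zero => intro a b hab; simpa using hab
          | succ k ih =>
            intro a b hab
            rw [pow_succ, rh_mul, rh_mul] at hab
            exact hinj (ih hab)
        exact this _
      exact zero_ne_one (DirectLimit.mk_injective (ff τ) hinj' 0 h)
    exact ⟨⟨_, _, h0⟩⟩
  have hfield : ∀ x : Lim τ, IsUnit x ∨ x = 0 := by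
    intro x
    obtain ⟨n, a, rfl⟩ := exists_mkL τ x
    by_cases ha : a = 0
    · right
      rw [ha, map_zero]
    · left
      rw [← mkL_tau]
      exact (hunit a ha).map _
  let _ : Field (Lim τ) := Field.ofIsUnitOrEqZero hfield
  have hQ : CharZero (Lim τ) :=
    charZero_of_injective_ringHom (((mkL τ 0).comp (algebraMap ℚ A)).injective)
  -- derivations
  have hder : ∀ (δ : Derivation ℚ A A) (h : ∀ a, τ (δ a) = δ (τ a)),
      ∃ d : Derivation ℚ (Lim τ) (Lim τ), ∀ n a, d (mkL τ n a) = mkL τ n (δ a) := by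
    intro δ h
    have hadd : ∀ x y, limMap τ δ h (x + y) = limMap τ δ h x + limMap τ δ h y := by
      intro x y
      obtain ⟨n, a, b, rfl, rfl⟩ := exists_mkL₂ τ x y
      rw [← map_add, limMap_mkL, limMap_mkL, limMap_mkL, map_add, map_add]
    let L : Lim τ →+ Lim τ := AddMonoidHom.mk' (limMap τ δ h) hadd
    refine ⟨Derivation.mk' L.toRatLinearMap ?_, fun n a => rfl⟩
    intro x y
    obtain ⟨n, a, b, rfl, rfl⟩ := exists_mkL₂ τ x y
    change limMap τ δ h (mkL τ n a * mkL τ n b) = mkL τ n a * limMap τ δ h (mkL τ n b) +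
      mkL τ n b * limMap τ δ h (mkL τ n a)
    rw [← map_mul, limMap_mkL, limMap_mkL, limMap_mkL,
      Derivation.leibniz, map_add, smul_eq_mul, smul_eq_mul, map_mul, map_mul]
  obtain ⟨d1, hd1⟩ := hder δ1 h1
  obtain ⟨d2, hd2⟩ := hder δ2 h2
  have hdcomm : ∀ x, d1 (d2 x) = d2 (d1 x) := by
    intro x
    obtain ⟨n, a, rfl⟩ := exists_mkL τ x
    rw [hd2, hd1, hd1, hd2, hcomm]
  have hjet1 : ∀ (w : Lim τ) (v : ℕ × ℕ), d1 (jet d1 d2 w v) = jet d1 d2 w (v.1 + 1, v.2) := by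
    intro w v
    simp only [jet, Function.iterate_succ_apply']
  have hjet2 : ∀ (w : Lim τ) (v : ℕ × ℕ), d2 (jet d1 d2 w v) = jet d1 d2 w (v.1, v.2 + 1) := by
    intro w v
    have : ∀ (k : ℕ) (x : Lim τ), d2 (d1^[k] x) = d1^[k] (d2 x) := by
      intro k
      induction k with
      | zero => intro x; rfl
      | succ k ih => intro x; rw [Function.iterate_succ_apply, ih, ← hdcomm]; rfl
    simp only [jet, Function.iterate_succ_apply']
    rw [this]
  have hjetm : ∀ (n : ℕ) (b : A) (v : ℕ × ℕ),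
      jet d1 d2 (mkL τ n b) v = mkL τ n (jet δ1 δ2 b v) := by
    intro n b v
    have e2 : ∀ (k : ℕ) (x : A), d2^[k] (mkL τ n x) = mkL τ n (δ2^[k] x) := by
      intro k
      induction k with
      | zero => intro x; rfl
      | succ k ih => intro x; rw [Function.iterate_succ_apply, hd2, ih]; rfl
    have e1 : ∀ (k : ℕ) (x : A), d1^[k] (mkL τ n x) = mkL τ n (δ1^[k] x) := by
      intro k
      induction k with
      | zero => intro x; rfl
      | succ k ih => intro x; rw [Function.iterate_succ_apply, hd1, ih]; rfl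
    simp only [jet, e2, e1]
  -- total derivatives
  have htot : ∀ (d : Derivation ℚ (Lim τ) (Lim τ)) (δ : A → A) (s : ℕ × ℕ → ℕ × ℕ)
      (_ : ∀ n a, d (mkL τ n a) = mkL τ n (δ a))
      (_ : ∀ (w : Lim τ) (v : ℕ × ℕ), d (jet d1 d2 w v) = jet d1 d2 w (s v))
      (n : ℕ) (P : MvPolynomial (ℕ × ℕ) A), ∃ Q : MvPolynomial (ℕ × ℕ) A, ∀ w : Lim τ,
        d (eval₂ (mkL τ n) (jet d1 d2 w) P) = eval₂ (mkL τ n) (jet d1 d2 w) Q := by
    intro d δ s hd hs n P
    induction P using MvPolynomial.induction_on with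
    | C a => exact ⟨C (δ a), fun w => by rw [eval₂_C, eval₂_C, hd]⟩
    | add P Q hP hQ =>
      obtain ⟨P', hP'⟩ := hP
      obtain ⟨Q', hQ'⟩ := hQ
      exact ⟨P' + Q', fun w => by rw [eval₂_add, eval₂_add, map_add, hP', hQ']⟩
    | mul_X P v hP =>
      obtain ⟨P', hP'⟩ := hP
      refine ⟨P * X (s v) + X v * P', fun w => ?_⟩
      rw [eval₂_mul, eval₂_X, Derivation.leibniz, hP', hs, eval₂_add, eval₂_mul, eval₂_mul,
        eval₂_X, eval₂_X, smul_eq_mul, smul_eq_mul]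
  have hlift : ∀ (n k : ℕ) (P : MvPolynomial (ℕ × ℕ) A) (w : Lim τ),
      eval₂ (mkL τ n) (jet d1 d2 w) P =
        eval₂ (mkL τ (n + k)) (jet d1 d2 w) (MvPolynomial.map (τ ^ k) P) := by
    intro n k P w
    rw [eval₂_map]
    congr 1
    ext a
    rw [RingHom.comp_apply, mkL_tau_pow]
  have hDP : ∀ G : Lim τ → Lim τ, DP d1 d2 G → ∃ (n : ℕ) (P : MvPolynomial (ℕ × ℕ) A),
      ∀ w, G w = eval₂ (mkL τ n) (jet d1 d2 w) P := by
    intro G hG
    induction hG with
    | const c =>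
      obtain ⟨n, a, rfl⟩ := exists_mkL τ c
      exact ⟨n, C a, fun w => by rw [eval₂_C]⟩
    | ident => exact ⟨0, X (0, 0), fun w => by rw [eval₂_X]; rfl⟩
    | @add f g _ _ hf hg =>
      obtain ⟨n, P, hP⟩ := hf
      obtain ⟨m, Q, hQ⟩ := hg
      refine ⟨n + m, MvPolynomial.map (τ ^ m) P + MvPolynomial.map (τ ^ n) Q, fun w => ?_⟩
      change f w + g w = _
      rw [eval₂_add, ← hlift n m P w, add_comm n m, ← hlift m n Q w, hP, hQ]
    | @mul f g _ _ hf hg =>
      obtain ⟨n, P, hP⟩ := hf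
      obtain ⟨m, Q, hQ⟩ := hg
      refine ⟨n + m, MvPolynomial.map (τ ^ m) P * MvPolynomial.map (τ ^ n) Q, fun w => ?_⟩
      change f w * g w = _
      rw [eval₂_mul, ← hlift n m P w, add_comm n m, ← hlift m n Q w, hP, hQ]
    | @der1 f _ hf =>
      obtain ⟨n, P, hP⟩ := hf
      obtain ⟨Q, hQ⟩ := htot d1 δ1 (fun v => (v.1 + 1, v.2)) hd1 hjet1 n P
      exact ⟨n, Q, fun w => by change d1 (f w) = _; rw [hP, hQ]⟩
    | @der2 f _ hf =>
      obtain ⟨n, P, hP⟩ := hf
      obtain ⟨Q, hQ⟩ := htot d2 δ2 (fun v => (v.1, v.2 + 1)) hd2 hjet2 n P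
      exact ⟨n, Q, fun w => by change d2 (f w) = _; rw [hP, hQ]⟩
  refine ⟨Lim τ, inferInstance, hQ, d1, d2, ⟨hdcomm, ?_, fun G hG hnc => ?_⟩⟩
  · obtain ⟨t, u, a1, a2, a3, a4⟩ := hcoord
    refine ⟨mkL τ 0 t, mkL τ 0 u, ?_, ?_, ?_, ?_⟩
    · rw [hd1, a1, map_one]
    · rw [hd2, a2, map_zero]
    · rw [hd1, a3, map_zero]
    · rw [hd2, a4, map_one]
  · obtain ⟨n, P, hP⟩ := hDP G hG
    have hPC : P ∉ Set.range (C : A → MvPolynomial (ℕ × ℕ) A) := by
      rintro ⟨a, rfl⟩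
      obtain ⟨x, y, hxy⟩ := hnc
      apply hxy
      rw [hP, hP, eval₂_C, eval₂_C]
    obtain ⟨b, hb⟩ := hroot P hPC
    refine ⟨mkL τ (n + 1) b, ?_⟩
    rw [hP]
    have e1 : (mkL τ n : A →+* Lim τ) = (mkL τ (n + 1)).comp τ := by
      ext a
      rw [RingHom.comp_apply, mkL_tau]
    have e2 : jet d1 d2 (mkL τ (n + 1) b) = fun v => mkL τ (n + 1) (jet δ1 δ2 b v) := by
      funext v
      exact hjetm _ _ _
    rw [e1, e2]
    have e3 := MvPolynomial.eval₂_comp_left (mkL τ (n + 1)) τ (jet δ1 δ2 b) P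
    rw [hb, map_zero] at e3
    exact e3.symm

end Pool.Agent.K7.H66.ML
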