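import Pool.Agent.K7.H66.ML.FD

/-!
# Nonnegative generalized polynomial functions
-/

namespace Pool.Agent.K7.H66.ML

open HahnSeries Finset
open scoped Pointwise

set_option linter.unusedSectionVars false

variable {S : Type*} [Field S] [CharZero S] {D : PD S}

/-- Monomials `w ħ^γ` in `SR D`. -/
noncomputable def mo (D : PD S) (γ : ℚ) (w : S) : SR D := toH.symm (single γ w)

theorem toH_mo (γ : ℚ) (w : S) : toH (mo D γ w) = single γ w := rfl

theorem cn_mul_mo (γ q δ : ℚ) (w : S) : cn D γ q * mo D δ w = mo D (γ + δ) (q • w) := by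
  apply toH.injective
  rw [toH_cn_mul, toH_mo, toH_mo, hb, single_mul_single, one_mul]
  ext ε
  rw [coeff_smul]
  by_cases h : ε = γ + δ
  · rw [h, coeff_single_same, coeff_single_same]
  · rw [coeff_single_of_ne h, coeff_single_of_ne h, smul_zero]

/-- The expansion of a generalized polynomial function. -/
theorem GP.expand' {f : SR D → SR D} (h : GP f) (y : SR D) :
    ∃ (n : ℕ) (M : ℕ → SR D → SR D), (∀ j, GP (M j)) ∧
      ∀ (z : SR D) (γ q : ℚ), toH (f (y + cn D γ q * z)) =
        ∑ j ∈ range (n + 1), q ^ j • (hb (j * γ) * toH (M j z)) := by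
  obtain ⟨n, p, h1, h2, h3⟩ := h.expand y
  refine ⟨n, fun j z => (p z).coeff j, h2, fun z γ q => ?_⟩
  rw [h3 z (cn D γ q) fun a => cn_comm γ q a,
    Polynomial.eval_eq_sum_range' (Nat.lt_succ_of_le (h1 z)), map_sum]
  refine sum_congr rfl fun j _ => ?_
  rw [cn_pow, toH_mul_cn]

theorem posit_fin (F : Finset ℚ) : ∀ (_ : ∀ γ ∈ F, 0 < γ) (ψ : SR D → SR D) (_ : GP ψ)
    (_ : ∀ w : S, toH (ψ (mo D 0 w)) ∈ Fil 0) (z : SR D)
    (_ : (toH z).support ⊆ insert 0 (F : Set ℚ)),
    toH (ψ z) ∈ Fil 0 ∧ (toH (ψ z)).coeff 0 = (toH (ψ (mo D 0 ((toH z).coeff 0)))).coeff 0 := by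
  classical
  induction F using Finset.induction with
  | empty =>
    intro _ ψ hψ h z hz
    have h1 : z = mo D 0 ((toH z).coeff 0) := by
      apply toH.injective
      rw [toH_mo]
      ext γ
      by_cases hγ : γ = 0
      · rw [hγ, coeff_single_same]
      · rw [coeff_single_of_ne hγ]
        by_contra hne
        have := hz hne
        simp only [coe_empty, Set.mem_insert_iff, Set.mem_empty_iff_false, or_false] at this
        exact hγ this
    have h2 := h ((toH z).coeff 0)
    rw [← h1] at h2 ⊢
    exact ⟨h2, rfl⟩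
  | insert γ F hγF ih =>
    intro hpos ψ hψ h z hz
    have hγ : 0 < γ := hpos γ (mem_insert_self _ _)
    have hF : ∀ δ ∈ F, 0 < δ := fun δ hδ => hpos δ (mem_insert_of_mem hδ)
    set w : S := (toH z).coeff γ with hw
    set u : SR D := z - mo D γ w with hu
    have hz' : z = u + cn D γ 1 * mo D 0 w := by
      rw [cn_mul_mo, one_smul, add_zero, hu, sub_add_cancel]
    have hucoeff : ∀ δ, (toH u).coeff δ = if δ = γ then 0 else (toH z).coeff δ := by
      intro δ
      rw [hu, map_sub, coeff_sub, toH_mo]
      split_ifs with h1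
      · rw [h1, coeff_single_same, sub_self]
      · rw [coeff_single_of_ne h1, sub_zero]
    have hsu : (toH u).support ⊆ insert 0 (F : Set ℚ) := by
      intro δ hδ
      have h1 : (toH u).coeff δ ≠ 0 := hδ
      rw [hucoeff] at h1
      split_ifs at h1 with h2
      · exact absurd rfl h1
      · have h3 := hz h1
        rw [coe_insert] at h3
        rcases h3 with h3 | h3 | h3
        · exact Or.inl h3
        · exact absurd h3 h2
        · exact Or.inr h3
    obtain ⟨n, M, -, hM⟩ := hψ.expand' u
    have h4 : ∀ j < n + 1, toH (M j (mo D 0 w)) ∈ Fil 0 := by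
      refine vand (Fil 0) (n + 1) (fun j => toH (M j (mo D 0 w))) fun q => ?_
      have h5 := hM (mo D 0 w) 0 q
      have hone : (hb 0 : HahnSeries ℚ S) = 1 := rfl
      simp only [mul_zero, hone, one_mul] at h5
      rw [← h5]
      refine (ih hF ψ hψ h _ ?_).1
      rw [cn_mul_mo, add_zero, map_add]
      refine (support_add_subset _ _).trans (Set.union_subset hsu ?_)
      rw [toH_mo]
      exact (support_single_subset).trans (by simp)
    have h6 : toH (ψ z) - toH (ψ u) ∈ Fil γ := by
      have h7 : toH (ψ z) = ∑ j ∈ range (n + 1), hb (j * γ) * toH (M j (mo D 0 w)) := by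
        have := hM (mo D 0 w) γ 1
        rw [← hz'] at this
        simpa using this
      have h8 : toH (ψ u) = toH (M 0 (mo D 0 w)) := by
        have := hM (mo D 0 w) 0 0
        have e : u + cn D 0 0 * mo D 0 w = u := by
          rw [cn_mul_mo, zero_smul]
          have : mo D (0 + 0) (0 : S) = 0 := by
            apply toH.injective
            rw [toH_mo, map_zero, map_zero]
          rw [this, add_zero]
        rw [e, Finset.sum_range_succ'] at this
        have hone : (hb 0 : HahnSeries ℚ S) = 1 := rfl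
        simpa [hone] using this
      rw [h7, h8, Finset.sum_range_succ']
      have hone : (hb ((0 : ℕ) * γ) : HahnSeries ℚ S) = 1 := by
        rw [Nat.cast_zero, zero_mul]; rfl
      rw [hone, one_mul, add_sub_cancel_right]
      refine (Fil γ).sum_mem fun j hj => ?_
      have h9 := Fil_hb (((j + 1 : ℕ) : ℚ) * γ) (h4 (j + 1) (by
        have := mem_range.1 hj; omega))
      refine Fil_mono ?_ h9
      rw [add_zero]
      have : (1 : ℚ) ≤ ((j + 1 : ℕ) : ℚ) := by
        push_cast
        have : (0 : ℚ) ≤ j := Nat.cast_nonneg j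
        linarith
      nlinarith
    obtain ⟨h10, h11⟩ := ih hF ψ hψ h u hsu
    have h12 : (toH u).coeff 0 = (toH z).coeff 0 := by
      rw [hucoeff, if_neg hγ.ne]
    rw [h12] at h11
    constructor
    · have h13 := (Fil (S := S) 0).add_mem (Fil_mono hγ.le h6) h10
      simpa using h13
    · rw [← h11]
      have h14 := h6 0 hγ
      rw [coeff_sub] at h14
      exact sub_eq_zero.mp h14

/-- A generalized polynomial function that takes `S` to series of nonnegative order takes all
series of nonnegative order to such series, and the constant coefficient of the value depends only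
on the constant coefficient of the argument. -/
theorem posit (ψ : SR D → SR D) (hψ : GP ψ) (h : ∀ w : S, toH (ψ (mo D 0 w)) ∈ Fil 0) (z : SR D)
    (hz : toH z ∈ Fil 0) :
    toH (ψ z) ∈ Fil 0 ∧
      (toH (ψ z)).coeff 0 = (toH (ψ (mo D 0 ((toH z).coeff 0)))).coeff 0 := by
  classical
  obtain ⟨U, hU, hU1, hU2⟩ := hψ.toFD (toH z).support (toH z).isPWO_support
  have key : ∀ δ : ℚ, ∃ z' : SR D, ∃ F : Finset ℚ, (∀ γ ∈ F, 0 < γ) ∧
      (toH z').support ⊆ insert 0 (F : Set ℚ) ∧ (toH z').coeff 0 = (toH z).coeff 0 ∧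
      (toH (ψ z)).coeff δ = (toH (ψ z')).coeff δ := by
    intro δ
    obtain ⟨Φ, hΦ, hΦ'⟩ := hU2 δ
    obtain ⟨F, hF⟩ := hΦ.fin
    set z' : SR D := toH.symm (∑ γ ∈ insert 0 F, single γ ((toH z).coeff γ)) with hz'
    have hc : ∀ γ, (toH z').coeff γ = if γ ∈ insert 0 F then (toH z).coeff γ else 0 := by
      intro γ
      rw [hz', LinearEquiv.apply_symm_apply, coeff_sum]
      split_ifs with h1
      · rw [Finset.sum_eq_single_of_mem γ h1, coeff_single_same]
        intro b _ hb
        exact coeff_single_of_ne (Ne.symm hb)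
      · refine Finset.sum_eq_zero fun b hb => coeff_single_of_ne ?_
        rintro rfl
        exact h1 hb
    refine ⟨z', F.filter (fun γ => 0 < γ), fun γ hγ => (mem_filter.1 hγ).2, ?_, ?_, ?_⟩
    · intro γ hγ
      have h1 : (toH z').coeff γ ≠ 0 := hγ
      rw [hc] at h1
      split_ifs at h1 with h2
      · have h3 : 0 ≤ γ := by
          by_contra h4
          exact h1 (hz γ (not_le.mp h4))
        rcases h3.eq_or_lt with h4 | h4
        · exact Or.inl h4.symm
        · refine Or.inr ?_
          rcases mem_insert.1 h2 with h5 | h5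
          · exact absurd h5 h4.ne'
          · simp only [coe_filter, Set.mem_ofPred_eq]
            exact ⟨h5, h4⟩
      · exact absurd rfl h1
    · rw [hc, if_pos (mem_insert_self _ _)]
    · rw [hΦ' z subset_rfl, hΦ' z']
      · refine hF _ _ fun γ hγ => ?_
        rw [hc, if_pos (mem_insert_of_mem hγ)]
      · intro γ hγ
        have h1 : (toH z').coeff γ ≠ 0 := hγ
        rw [hc] at h1
        split_ifs at h1 with h2
        · exact h1
        · exact absurd rfl h1
  constructor
  · intro δ hδ
    obtain ⟨z', F, h1, h2, -, h4⟩ := key δ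
    rw [h4]
    exact (posit_fin F h1 ψ hψ h z' h2).1 δ hδ
  · obtain ⟨z', F, h1, h2, h3, h4⟩ := key 0
    rw [h4, (posit_fin F h1 ψ hψ h z' h2).2, h3]

end Pool.Agent.K7.H66.ML
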