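import Pool.Agent.K7.H66.ML.Star
import Pool.Agent.K7.H66.ML.GPoly

/-!
# The ring of Hahn series with the star product
-/

namespace Pool.Agent.K7.H66.ML

open HahnSeries Finset
open scoped Pointwise

set_option linter.unusedSectionVars false

variable {S : Type*} [Field S] [CharZero S]

/-- Hahn series with exponents in `ℚ` and coefficients in `S`, with the star product. -/
def SR (_D : PD S) : Type _ := HahnSeries ℚ S

variable {D : PD S}

noncomputable instance : AddCommGroup (SR D) := inferInstanceAs (AddCommGroup (HahnSeries ℚ S))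

noncomputable instance : Module ℚ (SR D) := inferInstanceAs (Module ℚ (HahnSeries ℚ S))

noncomputable instance : Ring (SR D) :=
  { (inferInstance : AddCommGroup (SR D)) with
    mul := star D
    one := (1 : HahnSeries ℚ S)
    mul_assoc := star_assoc D
    one_mul := star_one_left D
    mul_one := star_one_right D
    left_distrib := star_add_right D
    right_distrib := star_add_left D
    zero_mul := star_zero_left D
    mul_zero := star_zero_right D }

/-- The underlying Hahn series. -/
noncomputable def toH : SR D ≃ₗ[ℚ] HahnSeries ℚ S := LinearEquiv.refl ℚ (HahnSeries ℚ S)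

theorem toH_mul (a b : SR D) : toH (a * b) = star D (toH a) (toH b) := rfl

theorem toH_one : toH (1 : SR D) = 1 := rfl

/-- The central elements `q ħ^γ` in `SR D`. -/
noncomputable def cn (D : PD S) (γ q : ℚ) : SR D := toH.symm (cen γ q)

theorem toH_cn (γ q : ℚ) : toH (cn D γ q) = cen γ q := rfl

theorem toH_cn_mul (γ q : ℚ) (a : SR D) : toH (cn D γ q * a) = q • (hb γ * toH a) :=
  star_cen_left D γ q _

theorem toH_mul_cn (γ q : ℚ) (a : SR D) : toH (a * cn D γ q) = q • (hb γ * toH a) :=
  star_cen_right D γ q _

theorem cn_comm (γ q : ℚ) (a : SR D) : a * cn D γ q = cn D γ q * a := by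
  apply toH.injective
  rw [toH_cn_mul, toH_mul_cn]

theorem cn_mul_cn (γ q δ r : ℚ) : cn D γ q * cn D δ r = cn D (γ + δ) (q * r) := by
  apply toH.injective
  rw [toH_cn_mul, toH_cn, toH_cn, cen, cen, mul_smul_comm, hb_mul, smul_smul]

theorem cn_zero_one : cn D 0 1 = 1 := by
  apply toH.injective
  rw [toH_cn, cen_zero_one, toH_one]

theorem cn_pow (γ q : ℚ) (n : ℕ) : cn D γ q ^ n = cn D (n * γ) (q ^ n) := by
  induction n with
  | zero => rw [pow_zero, pow_zero, Nat.cast_zero, zero_mul, cn_zero_one]
  | succ n ih =>
    rw [pow_succ, ih, cn_mul_cn, pow_succ]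
    congr 1
    push_cast
    ring

end Pool.Agent.K7.H66.ML
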