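import Pool.Agent.K7.H66.ML.Posit

/-!
# Every nonconstant generalized polynomial function has a zero
-/

namespace Pool.Agent.K7.H66.ML

open HahnSeries Finset
open scoped Pointwise

set_option linter.unusedSectionVars false

variable {S : Type*} [Field S] [CharZero S] {D : PD S}

theorem mem_Fil_order (x : HahnSeries ℚ S) : x ∈ Fil x.order :=
  fun _ h => coeff_eq_zero_of_lt_order h

theorem le_order {x : HahnSeries ℚ S} (hx : x ≠ 0) {δ : ℚ} (h : x ∈ Fil δ) : δ ≤ x.order := by
  by_contra hcon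
  have h1 : x.coeff x.order = 0 := h _ (not_le.mp hcon)
  exact hx (coeff_order_eq_zero.mp h1)

theorem lt_order {x : HahnSeries ℚ S} (hx : x ≠ 0) {δ : ℚ} (h : x ∈ Fil δ) (h0 : x.coeff δ = 0) :
    δ < x.order := by
  rcases (le_order hx h).eq_or_lt with h1 | h1
  · exact absurd (coeff_order_eq_zero.mp (by rw [← h1]; exact h0)) hx
  · exact h1

theorem shift_posit {φ : SR D → SR D} (hφ : GP φ) (y : SR D) {γ e : ℚ}
    (h : ∀ w : S, toH (φ (y + mo D γ w)) ∈ Fil e) (x : SR D) (hx : toH x ∈ Fil γ) :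
    toH (φ (y + x)) ∈ Fil e := by
  have hψ : GP (fun z => cn D (-e) 1 * φ (y + cn D γ 1 * z)) :=
    GP.mul (GP.const _) (hφ.comp_affine y (cn D γ 1))
  have h1 := (posit _ hψ (fun w => by
    rw [cn_mul_mo, one_smul, add_zero, toH_cn_mul, one_smul]
    have := Fil_hb (-e) (h w)
    rwa [neg_add_cancel] at this) (cn D (-γ) 1 * x) (by
    rw [toH_cn_mul, one_smul]
    have := Fil_hb (-γ) hx
    rwa [neg_add_cancel] at this)).1
  have h2 : cn D γ 1 * (cn D (-γ) 1 * x) = x := by
    rw [← mul_assoc, cn_mul_cn, add_neg_cancel, one_mul, cn_zero_one, one_mul]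
  rw [h2, toH_cn_mul, one_smul] at h1
  have h3 := Fil_hb e h1
  rw [← mul_assoc, hb_mul, add_neg_cancel, add_zero] at h3
  have hone : (hb 0 : HahnSeries ℚ S) = 1 := rfl
  rwa [hone, one_mul] at h3

theorem const_of {φ : SR D → SR D} (hφ : GP φ) (y : SR D)
    (h : ∀ (γ : ℚ) (w : S), φ (y + mo D γ w) = φ y) (z : SR D) : φ z = φ y := by
  have hf : GP (fun z => φ z + (-φ y)) := GP.add hφ (GP.const _)
  obtain ⟨γ, hγ⟩ := exists_Fil (toH (z - y))
  have h1 : ∀ e : ℚ, toH (φ z + (-φ y)) ∈ Fil e := by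
    intro e
    have := shift_posit hf y (γ := γ) (e := e) (fun w => by
      rw [h, add_neg_cancel, map_zero]; exact (Fil e).zero_mem) (z - y) hγ
    rwa [add_sub_cancel] at this
  have h2 : toH (φ z + (-φ y)) = 0 := by
    refine eq_of_forall_Fil fun N => ⟨N, le_rfl, ?_⟩
    rw [sub_zero]
    exact h1 N
  rw [map_add, map_neg, add_neg_eq_zero] at h2
  exact toH.injective h2

/-- `γ` is a good exponent at `y`. -/
def Good (φ : SR D → SR D) (y : SR D) (γ : ℚ) : Prop :=
  (∀ w : S, toH (φ (y + mo D γ w)) ∈ Fil (toH (φ y)).order) ∧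
    ∃ a b : S, (toH (φ (y + mo D γ a))).coeff (toH (φ y)).order ≠
      (toH (φ (y + mo D γ b))).coeff (toH (φ y)).order

theorem mo_zero (γ : ℚ) : mo D γ (0 : S) = 0 := by
  apply toH.injective
  rw [toH_mo, map_zero, map_zero]

theorem exists_good {φ : SR D → SR D} (hφ : GP φ) (hnc : ∃ a b, φ a ≠ φ b) (y : SR D) :
    ∃ γ, Good φ y γ := by
  classical
  set e := (toH (φ y)).order with he
  obtain ⟨n, M, hMG, hM⟩ := hφ.expand' y
  have hMs : ∀ j, ∃ U : Set ℚ, U.IsPWO ∧ ∀ w : S, (toH (M j (mo D 0 w))).support ⊆ U := by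
    intro j
    obtain ⟨U, hU, hU1, -⟩ := (hMG j).toFD {0} (Set.isPWO_singleton 0)
    exact ⟨U, hU, fun w => hU1 _ (by rw [toH_mo]; exact support_single_subset)⟩
  choose U hU hU1 using hMs
  set W : ℕ → Set ℚ := fun j => {δ | ∃ w : S, (toH (M j (mo D 0 w))).coeff δ ≠ 0} with hW
  have hWU : ∀ j, W j ⊆ U j := by
    rintro j δ ⟨w, hw⟩
    exact hU1 j w hw
  have hWF : ∀ j, (W j).IsWF := fun j => ((hU j).mono (hWU j)).isWF
  have hM1 : ∀ (γ q : ℚ) (w : S), toH (φ (y + mo D γ (q • w))) =
      ∑ j ∈ range (n + 1), q ^ j • (hb (j * γ) * toH (M j (mo D 0 w))) := by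
    intro γ q w
    have := hM (mo D 0 w) γ q
    rwa [cn_mul_mo, add_zero] at this
  have hone : (hb 0 : HahnSeries ℚ S) = 1 := rfl
  have hM0 : ∀ w, toH (M 0 (mo D 0 w)) = toH (φ y) := by
    intro w
    have := hM1 0 0 w
    rw [zero_smul, mo_zero, add_zero, Finset.sum_range_succ'] at this
    rw [this]
    simp [hone]
  set J : Finset ℕ := (range (n + 1)).filter (fun j => 1 ≤ j ∧ (W j).Nonempty) with hJ
  have hJne : J.Nonempty := by
    by_contra hcon
    rw [Finset.not_nonempty_iff_eq_empty] at hcon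
    have h0 : ∀ j ∈ range n, ∀ w, toH (M (j + 1) (mo D 0 w)) = 0 := by
      intro j hj w
      by_contra hne
      have : j + 1 ∈ J := by
        rw [hJ, mem_filter]
        refine ⟨mem_range.2 (by have := mem_range.1 hj; omega), by omega, ?_⟩
        obtain ⟨δ, hδ⟩ : ∃ δ, (toH (M (j + 1) (mo D 0 w))).coeff δ ≠ 0 := by
          by_contra h1
          push Not at h1
          exact hne (HahnSeries.ext (funext h1))
        exact ⟨δ, w, hδ⟩
      rw [hcon] at this
      exact absurd this (Finset.notMem_empty _)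
    have hc : ∀ z, φ z = φ y := const_of hφ y (by
      intro γ w
      apply toH.injective
      have := hM1 γ 1 w
      rw [one_smul, Finset.sum_range_succ'] at this
      rw [this, Finset.sum_eq_zero]
      · rw [one_pow, one_smul, Nat.cast_zero, zero_mul, hone, one_mul, zero_add, hM0]
      · intro j hj
        rw [h0 j hj w, mul_zero, smul_zero])
    obtain ⟨a, b, hab⟩ := hnc
    exact hab ((hc a).trans (hc b).symm)
  set d : ℕ → ℚ := fun j => if h : (W j).Nonempty then (hWF j).min h else 0 with hd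
  have hd1 : ∀ j, (W j).Nonempty → ∀ w, toH (M j (mo D 0 w)) ∈ Fil (d j) := by
    intro j hj w γ hγ
    by_contra hne
    have hmem : γ ∈ W j := ⟨w, hne⟩
    have : d j ≤ γ := by
      rw [hd]
      simp only [dif_pos hj]
      exact Set.IsWF.min_le (hWF j) hj hmem
    exact absurd hγ (not_lt.mpr this)
  have hd2 : ∀ j, (W j).Nonempty → d j ∈ W j := by
    intro j hj
    rw [hd]
    simp only [dif_pos hj]
    exact Set.IsWF.min_mem (hWF j) hj
  obtain ⟨j0, hj0, hmax⟩ := Finset.exists_max_image J (fun j => (e - d j) / (j : ℚ)) hJne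
  set γ : ℚ := (e - d j0) / (j0 : ℚ) with hγ
  have hj0' := mem_filter.1 hj0
  have hj0pos : (0 : ℚ) < j0 := by exact_mod_cast hj0'.2.1
  have hge : ∀ j ∈ J, e ≤ j * γ + d j := by
    intro j hj
    have h1 := hmax j hj
    have hjpos : (0 : ℚ) < j := by exact_mod_cast (mem_filter.1 hj).2.1
    rw [div_le_iff₀ hjpos] at h1
    rw [hγ]
    linarith [mul_comm ((e - d j0) / (j0 : ℚ)) (j : ℚ)]
  have heq : e - j0 * γ = d j0 := by
    rw [hγ]
    field_simp
    ring
  refine ⟨γ, fun w => ?_, ?_⟩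
  · have h1 := hM1 γ 1 w
    rw [one_smul] at h1
    rw [h1]
    refine (Fil _).sum_mem fun j hj => ?_
    rw [one_pow, one_smul]
    rcases Nat.eq_zero_or_pos j with h2 | h2
    · subst h2
      rw [Nat.cast_zero, zero_mul, hone, one_mul, hM0]
      exact mem_Fil_order _
    · by_cases h3 : (W j).Nonempty
      · have h4 : j ∈ J := by
          rw [hJ, mem_filter]
          exact ⟨hj, h2, h3⟩
        exact Fil_mono (hge j h4) (Fil_hb _ (hd1 j h3 w))
      · have h5 : toH (M j (mo D 0 w)) = 0 := by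
          ext δ
          by_contra hne
          exact h3 ⟨δ, w, hne⟩
        rw [h5, mul_zero]
        exact (Fil _).zero_mem
  · by_contra hcon
    push Not at hcon
    obtain ⟨w, hw⟩ := hd2 j0 hj0'.2.2
    set x : ℕ → S := fun j => if j = 0 then 0 else (toH (M j (mo D 0 w))).coeff (e - j * γ) with hx
    have h1 : ∀ q : ℚ, ∑ j ∈ range (n + 1), q ^ j • x j ∈ (⊥ : Submodule ℚ S) := by
      intro q
      rw [Submodule.mem_bot]
      have h2 := hcon (q • w) 0
      rw [mo_zero, add_zero, hM1 γ q w, Finset.sum_range_succ', ← he] at h2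
      simp only [pow_zero, one_smul, Nat.cast_zero, zero_mul, hone, one_mul, hM0, coeff_add,
        add_eq_right] at h2
      rw [Finset.sum_range_succ']
      simp only [hx, if_pos, smul_zero, add_zero]
      rw [← h2, coeff_sum]
      refine sum_congr rfl fun j _ => ?_
      rw [if_neg (Nat.succ_ne_zero j), coeff_smul, hb_coeff]
    have h3 := vand ⊥ (n + 1) x h1 j0 (mem_range.1 hj0'.1)
    rw [Submodule.mem_bot, hx] at h3
    simp only [if_neg (show j0 ≠ 0 by have := hj0'.2.1; omega), heq] at h3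
    exact hw h3

/-- Spherical completeness: gluing a chain. -/
theorem glue (c : Set (SR D)) (g : SR D → ℚ)
    (h : ∀ a ∈ c, ∀ b ∈ c, ∀ δ, δ < g a → δ < g b → (toH a).coeff δ = (toH b).coeff δ) :
    ∃ x : SR D, ∀ a ∈ c, toH (x - a) ∈ Fil (g a) := by
  classical
  set F : ℚ → S := fun δ => if hδ : ∃ a ∈ c, δ < g a then (toH hδ.choose).coeff δ else 0 with hF
  have hF1 : ∀ a ∈ c, ∀ δ, δ < g a → F δ = (toH a).coeff δ := by
    intro a ha δ hδ
    have hex : ∃ a ∈ c, δ < g a := ⟨a, ha, hδ⟩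
    rw [hF]
    simp only [dif_pos hex]
    exact h _ hex.choose_spec.1 a ha δ hex.choose_spec.2 hδ
  have hPWO : (Function.support F).IsPWO := by
    rw [Set.isPWO_iff_isWF, Set.isWF_iff_no_descending_seq]
    intro f hf hmem
    have h0 : F (f 0) ≠ 0 := hmem 0
    have hex : ∃ a ∈ c, f 0 < g a := by
      by_contra hcon
      apply h0
      rw [hF]
      simp only [dif_neg hcon]
    obtain ⟨a, ha, hlt⟩ := hex
    have hwf : ((toH a).support).IsWF := (toH a).isPWO_support.isWF
    rw [Set.isWF_iff_no_descending_seq] at hwf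
    refine hwf f hf fun n => ?_
    have hn : f n < g a := lt_of_le_of_lt (hf.antitone (Nat.zero_le n)) hlt
    have h1 : F (f n) ≠ 0 := hmem n
    rw [hF1 a ha _ hn] at h1
    exact h1
  refine ⟨toH.symm ⟨F, hPWO⟩, fun a ha δ hδ => ?_⟩
  rw [map_sub, coeff_sub, LinearEquiv.apply_symm_apply]
  change F δ - (toH a).coeff δ = 0
  rw [hF1 a ha δ hδ, sub_self]

/-- The root theorem. -/
theorem root (hDC : ∀ G : S → S, DP D.d1 D.d2 G → (∃ a b, G a ≠ G b) → ∃ w, G w = 0)
    {φ : SR D → SR D} (hφ : GP φ) (hnc : ∃ a b, φ a ≠ φ b) : ∃ y, φ y = 0 := by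
  classical
  by_contra hcon
  push Not at hcon
  have hne : ∀ y, toH (φ y) ≠ 0 := fun y h => hcon y (toH.injective (h.trans (map_zero _).symm))
  choose g hg using exists_good hφ hnc
  set e : SR D → ℚ := fun y => (toH (φ y)).order with he
  -- the order
  set lt : SR D → SR D → Prop := fun y z => toH (z - y) ∈ Fil (g y) ∧ e y < e z with hlt
  have hball : ∀ y x, toH x ∈ Fil (g y) → toH (φ (y + x)) ∈ Fil (e y) :=
    fun y x hx => shift_posit hφ y (hg y).1 x hx
  have hglt : ∀ y z, lt y z → g y < g z := by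
    intro y z hyz
    by_contra hcon2
    have h1 : toH (y - z) ∈ Fil (g z) := by
      have h2 : toH (y - z) ∈ Fil (g y) := by
        have := (Fil (S := S) (g y)).neg_mem hyz.1
        rwa [← map_neg, neg_sub] at this
      exact Fil_mono (not_lt.mp hcon2) h2
    have h3 := hball z (y - z) h1
    rw [add_sub_cancel] at h3
    exact absurd (le_order (hne y) h3) (not_le.mpr hyz.2)
  have htrans : ∀ y z x, lt y z → lt z x → lt y x := by
    intro y z x h1 h2
    refine ⟨?_, h1.2.trans h2.2⟩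
    have h3 := (Fil (S := S) (g y)).add_mem h1.1 (Fil_mono (hglt y z h1).le h2.1)
    rwa [← map_add, add_comm, sub_add_sub_cancel] at h3
  -- successors
  have hsucc : ∀ y, ∃ z, lt y z := by
    intro y
    obtain ⟨h1, a, b, hab⟩ := hg y
    have hGP : GP (fun x => φ (y + cn D (g y) 1 * x)) := hφ.comp_affine y (cn D (g y) 1)
    obtain ⟨U, -, -, hU⟩ := hGP.toFD {0} (Set.isPWO_singleton 0)
    obtain ⟨Φ, hΦ, hΦ'⟩ := hU (e y)
    have h2 : ∀ w : S, (toH (φ (y + mo D (g y) w))).coeff (e y) = Φ (single 0 w) := by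
      intro w
      have h3 := hΦ' (mo D 0 w) (by rw [toH_mo]; exact support_single_subset)
      rw [cn_mul_mo, one_smul, add_zero, toH_mo] at h3
      exact h3
    obtain ⟨w, hw⟩ := hDC _ hΦ.toDP ⟨a, b, by rw [← h2, ← h2]; exact hab⟩
    have h4 : (toH (φ (y + mo D (g y) w))).coeff (e y) = 0 := by rw [h2]; exact hw
    refine ⟨y + mo D (g y) w, ?_, lt_order (hne _) (h1 w) h4⟩
    rw [add_sub_cancel_left, toH_mo]
    intro δ hδ
    exact coeff_single_of_ne hδ.ne
  -- Zorn
  obtain ⟨m, hm⟩ := exists_maximal_of_chains_bounded (r := fun y z => y = z ∨ lt y z) (by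
    intro c hc
    by_cases hmax : ∃ m ∈ c, ∀ a ∈ c, a = m ∨ lt a m
    · obtain ⟨m, -, hm⟩ := hmax
      exact ⟨m, hm⟩
    · push Not at hmax
      have hup : ∀ a ∈ c, ∃ b ∈ c, lt a b := by
        intro a ha
        obtain ⟨b, hb, hba, hnlt⟩ := hmax a ha
        rcases hc ha hb (Ne.symm hba) with h1 | h1
        · rcases h1 with h1 | h1
          · exact absurd h1.symm hba
          · exact ⟨b, hb, h1⟩
        · rcases h1 with h1 | h1
          · exact absurd h1 hba
          · exact absurd h1 hnlt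
      have hcomp : ∀ a b, lt a b → ∀ δ, δ < g a → (toH a).coeff δ = (toH b).coeff δ := by
        intro a b hab δ hδ
        have := hab.1 δ hδ
        rw [map_sub, coeff_sub] at this
        exact (sub_eq_zero.mp this).symm
      obtain ⟨x, hx⟩ := glue c g (by
        intro a ha b hb δ hδa hδb
        by_cases hab : a = b
        · rw [hab]
        · rcases hc ha hb hab with h1 | h1
          · rcases h1 with h1 | h1
            · rw [h1]
            · exact hcomp a b h1 δ hδa
          · rcases h1 with h1 | h1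
            · rw [h1]
            · exact (hcomp b a h1 δ hδb).symm)
      refine ⟨x, fun a ha => Or.inr ⟨hx a ha, ?_⟩⟩
      obtain ⟨b, hb, hab⟩ := hup a ha
      have h2 := hball b (x - b) (hx b hb)
      rw [add_sub_cancel] at h2
      exact lt_of_lt_of_le hab.2 (le_order (hne x) h2)) (by
    rintro a b c (rfl | h1) (rfl | h2)
    · exact Or.inl rfl
    · exact Or.inr h2
    · exact Or.inr h1
    · exact Or.inr (htrans a b c h1 h2))
  obtain ⟨z, hz⟩ := hsucc m
  rcases hm z (Or.inr hz) with h1 | h1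
  · rw [h1] at hz
    exact lt_irrefl _ hz.2
  · exact lt_asymm hz.2 h1.2

end Pool.Agent.K7.H66.ML
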