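import Pool.Agent.K7.H66.ML.Coeff

/-!
# The star product
-/

namespace Pool.Agent.K7.H66.ML

open HahnSeries Finset
open scoped Pointwise

set_option linter.unusedSectionVars false

/-- A field with two commuting derivations. -/
structure PD (S : Type*) [Field S] [CharZero S] where
  /-- first derivation -/
  d1 : Derivation ℚ S S
  /-- second derivation -/
  d2 : Derivation ℚ S S
  comm : ∀ x, d1 (d2 x) = d2 (d1 x)

variable {S : Type*} [Field S] [CharZero S] (D : PD S)

/-- The `n`-th term of the star product. -/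
noncomputable def tm (n : ℕ) (a b : HahnSeries ℚ S) : HahnSeries ℚ S :=
  hb n * (HP D.d1 n a * HE D.d2 n b)

theorem tm_add_left (n : ℕ) (a a' b : HahnSeries ℚ S) :
    tm D n (a + a') b = tm D n a b + tm D n a' b := by
  simp only [tm, map_add, add_mul, mul_add]

theorem tm_add_right (n : ℕ) (a b b' : HahnSeries ℚ S) :
    tm D n a (b + b') = tm D n a b + tm D n a b' := by
  simp only [tm, map_add, mul_add]

theorem tm_sub_left (n : ℕ) (a a' b : HahnSeries ℚ S) :
    tm D n (a - a') b = tm D n a b - tm D n a' b := by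
  simp only [tm, map_sub, sub_mul, mul_sub]

theorem tm_sub_right (n : ℕ) (a b b' : HahnSeries ℚ S) :
    tm D n a (b - b') = tm D n a b - tm D n a b' := by
  simp only [tm, map_sub, mul_sub]

theorem tm_Fil (n : ℕ) {a b : HahnSeries ℚ S} {α β : ℚ} (ha : a ∈ Fil α) (hb' : b ∈ Fil β) :
    tm D n a b ∈ Fil (α + β + n) := by
  have h := Fil_hb (n : ℚ) (Fil_mul (Fil_HP D.d1 n ha) (Fil_HE D.d2 n hb'))
  rw [add_comm (n : ℚ)] at h
  exact h

theorem natRange_isPWO : (Set.range (Nat.cast : ℕ → ℚ)).IsPWO := by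
  rw [← Set.image_univ]
  exact (Set.isPWO_of_wellQuasiOrderedLE _).image_of_monotone Nat.mono_cast

theorem tm_support (n : ℕ) (a b : HahnSeries ℚ S) :
    (tm D n a b).support ⊆ Set.range (Nat.cast : ℕ → ℚ) + (a.support + b.support) := by
  refine support_mul_subset.trans (Set.add_subset_add ?_ (support_mul_subset.trans
    (Set.add_subset_add (HP_support _ _ _) (HE_support _ _ _))))
  intro γ hγ
  have : γ = n := by
    by_contra hne
    apply hγ
    rw [hb, coeff_single_of_ne hne]
  exact ⟨n, this.symm⟩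

/-- The summable family of the star product. -/
noncomputable def fam (a b : HahnSeries ℚ S) : SummableFamily ℚ S ℕ where
  toFun n := tm D n a b
  isPWO_iUnion_support' := by
    refine (natRange_isPWO.add (a.isPWO_support.add b.isPWO_support)).mono ?_
    exact Set.iUnion_subset fun n => tm_support D n a b
  finite_co_support' γ := by
    obtain ⟨α, ha⟩ := exists_Fil a
    obtain ⟨β, hb'⟩ := exists_Fil b
    obtain ⟨N, hN⟩ := exists_nat_gt (γ - α - β)
    refine (Set.finite_lt_nat N).subset ?_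
    intro n hn
    by_contra hcon
    have hn' : N ≤ n := not_lt.mp hcon
    apply hn
    refine tm_Fil D n ha hb' γ ?_
    have : (N : ℚ) ≤ n := by exact_mod_cast hn'
    linarith

/-- The star product `a ⋆ b = ∑ ħ^n / n! (d1^n a) (d2^n b)`. -/
noncomputable def star (a b : HahnSeries ℚ S) : HahnSeries ℚ S := (fam D a b).hsum

theorem star_coeff (a b : HahnSeries ℚ S) {α β γ : ℚ} {N : ℕ} (ha : a ∈ Fil α) (hb' : b ∈ Fil β)
    (h : γ < α + β + N) : (star D a b).coeff γ = (∑ n ∈ range N, tm D n a b).coeff γ := by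
  rw [star, SummableFamily.coeff_hsum, finsum_eq_sum_of_support_subset (s := range N)]
  · rw [coeff_sum]; rfl
  · intro n hn
    rw [coe_range, Set.mem_Iio]
    by_contra hcon
    have hn' : N ≤ n := not_lt.mp hcon
    apply hn
    refine tm_Fil D n ha hb' γ ?_
    have : (N : ℚ) ≤ n := by exact_mod_cast hn'
    linarith

theorem star_trunc (a b : HahnSeries ℚ S) {α β : ℚ} (N : ℕ) (ha : a ∈ Fil α) (hb' : b ∈ Fil β) :
    star D a b - ∑ n ∈ range N, tm D n a b ∈ Fil (α + β + N) := by
  intro γ hγ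
  rw [coeff_sub, star_coeff D a b ha hb' hγ, sub_self]

theorem star_Fil {a b : HahnSeries ℚ S} {α β : ℚ} (ha : a ∈ Fil α) (hb' : b ∈ Fil β) :
    star D a b ∈ Fil (α + β) := by
  have h := star_trunc D a b 0 ha hb'
  simpa using h

theorem star_add_left (a a' b : HahnSeries ℚ S) : star D (a + a') b = star D a b + star D a' b := by
  rw [star, star, star, ← SummableFamily.hsum_add]
  congr 1
  ext n γ
  exact congrArg (fun z => HahnSeries.coeff z γ) (tm_add_left D n a a' b)

theorem star_add_right (a b b' : HahnSeries ℚ S) :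
    star D a (b + b') = star D a b + star D a b' := by
  rw [star, star, star, ← SummableFamily.hsum_add]
  congr 1
  ext n γ
  exact congrArg (fun z => HahnSeries.coeff z γ) (tm_add_right D n a b b')

theorem star_zero_left (b : HahnSeries ℚ S) : star D 0 b = 0 := by
  have h := star_add_left D 0 0 b
  rw [add_zero] at h
  exact left_eq_add.mp h

theorem star_zero_right (a : HahnSeries ℚ S) : star D a 0 = 0 := by
  have h := star_add_right D a 0 0
  rw [add_zero] at h
  exact left_eq_add.mp h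

/-- Central elements `q ħ^γ`. -/
noncomputable def cen (γ q : ℚ) : HahnSeries ℚ S := q • hb γ

theorem HP_cen (d : Derivation ℚ S S) (n : ℕ) (γ q : ℚ) :
    HP d (n + 1) (cen γ q : HahnSeries ℚ S) = 0 := by
  ext δ
  rw [HP_coeff, cen, coeff_smul, map_smul, hb, coeff_single]
  have h1 : dp d (n + 1) (1 : S) = 0 := by
    induction n with
    | zero => rw [dp_succ, dp_zero]; exact d.map_one_eq_zero
    | succ n ih => rw [dp_succ, ih, map_zero]
  split_ifs
  · rw [h1]; simp
  · rw [map_zero]; simp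

theorem HE_cen (d : Derivation ℚ S S) (n : ℕ) (γ q : ℚ) :
    HE d (n + 1) (cen γ q : HahnSeries ℚ S) = 0 := by
  rw [HE_apply, HP_cen, smul_zero]

theorem tm_cen_left (n : ℕ) (γ q : ℚ) (a : HahnSeries ℚ S) : tm D (n + 1) (cen γ q) a = 0 := by
  rw [tm, HP_cen, zero_mul, mul_zero]

theorem tm_cen_right (n : ℕ) (γ q : ℚ) (a : HahnSeries ℚ S) : tm D (n + 1) a (cen γ q) = 0 := by
  rw [tm, HE_cen, mul_zero, mul_zero]

theorem star_cen_left (γ q : ℚ) (a : HahnSeries ℚ S) : star D (cen γ q) a = q • (hb γ * a) := by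
  rw [star]
  ext δ
  rw [SummableFamily.coeff_hsum, finsum_eq_single _ 0]
  · change (tm D 0 (cen γ q) a).coeff δ = _
    rw [tm, HP_zero, HE_zero, Nat.cast_zero]
    have : (hb 0 : HahnSeries ℚ S) = 1 := rfl
    rw [this, one_mul, cen, smul_mul_assoc]
  · intro n hn
    obtain ⟨m, rfl⟩ := Nat.exists_eq_succ_of_ne_zero hn
    change (tm D (m + 1) (cen γ q) a).coeff δ = 0
    rw [tm_cen_left, coeff_zero]

theorem star_cen_right (γ q : ℚ) (a : HahnSeries ℚ S) : star D a (cen γ q) = q • (hb γ * a) := by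
  rw [star]
  ext δ
  rw [SummableFamily.coeff_hsum, finsum_eq_single _ 0]
  · change (tm D 0 a (cen γ q)).coeff δ = _
    rw [tm, HP_zero, HE_zero, Nat.cast_zero]
    have : (hb 0 : HahnSeries ℚ S) = 1 := rfl
    rw [this, one_mul, cen, mul_smul_comm, mul_comm]
  · intro n hn
    obtain ⟨m, rfl⟩ := Nat.exists_eq_succ_of_ne_zero hn
    change (tm D (m + 1) a (cen γ q)).coeff δ = 0
    rw [tm_cen_right, coeff_zero]

theorem cen_zero_one : (cen 0 1 : HahnSeries ℚ S) = 1 := by
  rw [cen, one_smul]; rfl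

theorem star_one_left (a : HahnSeries ℚ S) : star D 1 a = a := by
  rw [← cen_zero_one, star_cen_left, one_smul]
  have : (hb 0 : HahnSeries ℚ S) = 1 := rfl
  rw [this, one_mul]

theorem star_one_right (a : HahnSeries ℚ S) : star D a 1 = a := by
  rw [← cen_zero_one, star_cen_right, one_smul]
  have : (hb 0 : HahnSeries ℚ S) = 1 := rfl
  rw [this, one_mul]

/-! ### Associativity -/

/-- The general term of a triple product. -/
noncomputable def tri (a b c : HahnSeries ℚ S) (p q r : ℕ) : HahnSeries ℚ S :=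
  (q + r).choose q • (hb ((p + q + r : ℕ) : ℚ) *
    (HP D.d1 (p + q) a * (HP D.d1 r (HE D.d2 p b)) * HE D.d2 (q + r) c))

theorem tri_Fil {a b c : HahnSeries ℚ S} {α β χ : ℚ} (ha : a ∈ Fil α) (hb' : b ∈ Fil β)
    (hc : c ∈ Fil χ) (p q r : ℕ) : tri D a b c p q r ∈ Fil (α + β + χ + (p + q + r : ℕ)) := by
  rw [tri]
  refine (Fil _).smul_of_tower_mem _ ?_
  have h := Fil_hb ((p + q + r : ℕ) : ℚ) (Fil_mul (Fil_mul (Fil_HP D.d1 (p + q) ha)
    (Fil_HP D.d1 r (Fil_HE D.d2 p hb'))) (Fil_HE D.d2 (q + r) hc))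
  rw [add_comm ((p + q + r : ℕ) : ℚ)] at h
  exact h

theorem tm_tm_left (a b c : HahnSeries ℚ S) (m p : ℕ) :
    tm D m (tm D p a b) c = ∑ qr ∈ antidiagonal m, tri D a b c p qr.1 qr.2 := by
  rw [tm, tm, HP_hb_mul, HP_mul, Finset.mul_sum, Finset.sum_mul, Finset.mul_sum]
  refine sum_congr rfl fun qr hqr => ?_
  obtain ⟨q, r⟩ := qr
  have h : q + r = m := mem_antidiagonal.1 hqr
  subst h
  simp only [tri]
  rw [HP_add]
  have e : (hb ((p + q + r : ℕ) : ℚ) : HahnSeries ℚ S) = hb ((q + r : ℕ) : ℚ) * hb (p : ℚ) := by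
    rw [hb_mul]; congr 1; push_cast; ring
  rw [e, add_comm q p]
  simp only [nsmul_eq_mul]
  ring

theorem tm_tm_right (a b c : HahnSeries ℚ S) (m r : ℕ) :
    tm D m a (tm D r b c) = ∑ pq ∈ antidiagonal m, tri D a b c pq.1 pq.2 r := by
  rw [tm, tm, HE_hb_mul, HE_mul, Finset.mul_sum, Finset.mul_sum, Finset.mul_sum]
  refine sum_congr rfl fun pq hpq => ?_
  obtain ⟨p, q⟩ := pq
  have h : p + q = m := mem_antidiagonal.1 hpq
  subst h
  simp only [tri]
  rw [HE_HE, ← HP_HE_comm D.comm]
  have e : (hb ((p + q + r : ℕ) : ℚ) : HahnSeries ℚ S) = hb ((p + q : ℕ) : ℚ) * hb (r : ℚ) := by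
    rw [hb_mul]; congr 1; push_cast; ring
  rw [e]
  simp only [nsmul_eq_mul]
  ring

theorem sum_antidiag_sub (V : Submodule ℚ (HahnSeries ℚ S)) (N : ℕ) (f : ℕ → ℕ → HahnSeries ℚ S)
    (hf : ∀ q r, N ≤ q + r → f q r ∈ V) :
    (∑ m ∈ range N, ∑ qr ∈ antidiagonal m, f qr.1 qr.2) -
      ∑ q ∈ range N, ∑ r ∈ range N, f q r ∈ V := by
  have h1 : ∑ m ∈ range N, ∑ qr ∈ antidiagonal m, f qr.1 qr.2 =
      ∑ x ∈ (range N ×ˢ range N) with x.1 + x.2 < N, f x.1 x.2 := by
    rw [← Finset.sum_fiberwise_of_maps_to (s := (range N ×ˢ range N).filter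
      (fun x : ℕ × ℕ => x.1 + x.2 < N)) (t := range N) (g := fun x => x.1 + x.2)]
    · refine sum_congr rfl fun m hm => ?_
      have hm' : m < N := mem_range.1 hm
      refine sum_congr ?_ fun _ _ => rfl
      ext ⟨q, r⟩
      simp only [Finset.HasAntidiagonal.mem_antidiagonal, mem_filter, mem_product, mem_range]
      constructor
      · intro h; omega
      · intro h; exact h.2
    · intro x hx
      simp only [mem_filter] at hx
      exact mem_range.2 hx.2
  rw [h1, ← Finset.sum_product', ← Finset.sum_filter_add_sum_filter_not (range N ×ˢ range N)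
    (fun x : ℕ × ℕ => x.1 + x.2 < N) (fun x => f x.1 x.2), sub_add_cancel_left]
  refine V.neg_mem (V.sum_mem fun x hx => hf _ _ ?_)
  simp only [mem_filter] at hx
  omega

theorem star_sum_trunc_left (a b c : HahnSeries ℚ S) {α β χ : ℚ} (N : ℕ) (ha : a ∈ Fil α)
    (hb' : b ∈ Fil β) (hc : c ∈ Fil χ) :
    star D (star D a b) c - ∑ p ∈ range N, ∑ q ∈ range N, ∑ r ∈ range N, tri D a b c p q r ∈
      Fil (α + β + χ + N) := by
  have h1 := star_trunc D (star D a b) c N (star_Fil D ha hb') hc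
  have h2 : ∑ m ∈ range N, tm D m (star D a b) c -
      ∑ m ∈ range N, ∑ p ∈ range N, tm D m (tm D p a b) c ∈ Fil (α + β + χ + N) := by
    rw [← Finset.sum_sub_distrib]
    refine (Fil _).sum_mem fun m _ => ?_
    have h3 : ∀ s : Finset ℕ, ∑ p ∈ s, tm D m (tm D p a b) c =
        tm D m (∑ p ∈ s, tm D p a b) c := by
      intro s
      simp only [tm, map_sum, Finset.mul_sum, Finset.sum_mul]
    rw [h3, ← tm_sub_left]
    have h4 := tm_Fil D m (star_trunc D a b N ha hb') hc
    refine Fil_mono ?_ h4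
    have : (0 : ℚ) ≤ m := Nat.cast_nonneg m
    linarith
  have h5 : ∑ m ∈ range N, ∑ p ∈ range N, tm D m (tm D p a b) c -
      ∑ p ∈ range N, ∑ q ∈ range N, ∑ r ∈ range N, tri D a b c p q r ∈
        Fil (α + β + χ + N) := by
    rw [Finset.sum_comm, ← Finset.sum_sub_distrib]
    refine (Fil _).sum_mem fun p _ => ?_
    simp only [tm_tm_left]
    refine sum_antidiag_sub _ N (fun q r => tri D a b c p q r) fun q r hqr => ?_
    refine Fil_mono ?_ (tri_Fil D ha hb' hc p q r)
    have : (N : ℚ) ≤ (p + q + r : ℕ) := by exact_mod_cast (by omega)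
    linarith
  have := (Fil (S := S) (α + β + χ + N)).add_mem ((Fil _).add_mem h1 h2) h5
  simpa using this

theorem star_sum_trunc_right (a b c : HahnSeries ℚ S) {α β χ : ℚ} (N : ℕ) (ha : a ∈ Fil α)
    (hb' : b ∈ Fil β) (hc : c ∈ Fil χ) :
    star D a (star D b c) - ∑ p ∈ range N, ∑ q ∈ range N, ∑ r ∈ range N, tri D a b c p q r ∈
      Fil (α + β + χ + N) := by
  have h1 : star D a (star D b c) - ∑ m ∈ range N, tm D m a (star D b c) ∈
      Fil (α + β + χ + N) := by
    have := star_trunc D a (star D b c) N ha (star_Fil D hb' hc)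
    rwa [← add_assoc] at this
  have h2 : ∑ m ∈ range N, tm D m a (star D b c) -
      ∑ m ∈ range N, ∑ r ∈ range N, tm D m a (tm D r b c) ∈ Fil (α + β + χ + N) := by
    rw [← Finset.sum_sub_distrib]
    refine (Fil _).sum_mem fun m _ => ?_
    have h3 : ∀ s : Finset ℕ, ∑ r ∈ s, tm D m a (tm D r b c) =
        tm D m a (∑ r ∈ s, tm D r b c) := by
      intro s
      simp only [tm, map_sum, Finset.mul_sum]
    rw [h3, ← tm_sub_right]
    have h4 := tm_Fil D m ha (star_trunc D b c N hb' hc)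
    refine Fil_mono ?_ h4
    have : (0 : ℚ) ≤ m := Nat.cast_nonneg m
    linarith
  have h5 : ∑ m ∈ range N, ∑ r ∈ range N, tm D m a (tm D r b c) -
      ∑ p ∈ range N, ∑ q ∈ range N, ∑ r ∈ range N, tri D a b c p q r ∈
        Fil (α + β + χ + N) := by
    have e : ∑ p ∈ range N, ∑ q ∈ range N, ∑ r ∈ range N, tri D a b c p q r =
        ∑ r ∈ range N, ∑ p ∈ range N, ∑ q ∈ range N, tri D a b c p q r := by
      have e1 : ∀ p ∈ range N, ∑ q ∈ range N, ∑ r ∈ range N, tri D a b c p q r =
          ∑ r ∈ range N, ∑ q ∈ range N, tri D a b c p q r := fun p _ => Finset.sum_comm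
      rw [Finset.sum_congr rfl e1, Finset.sum_comm]
    rw [e, Finset.sum_comm, ← Finset.sum_sub_distrib]
    refine (Fil _).sum_mem fun r _ => ?_
    simp only [tm_tm_right]
    refine sum_antidiag_sub _ N (fun p q => tri D a b c p q r) fun p q hpq => ?_
    refine Fil_mono ?_ (tri_Fil D ha hb' hc p q r)
    have : (N : ℚ) ≤ (p + q + r : ℕ) := by exact_mod_cast (by omega)
    linarith
  have := (Fil (S := S) (α + β + χ + N)).add_mem ((Fil _).add_mem h1 h2) h5
  simpa using this

theorem star_assoc (a b c : HahnSeries ℚ S) :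
    star D (star D a b) c = star D a (star D b c) := by
  obtain ⟨α, ha⟩ := exists_Fil a
  obtain ⟨β, hb'⟩ := exists_Fil b
  obtain ⟨χ, hc⟩ := exists_Fil c
  refine eq_of_forall_Fil fun N => ?_
  obtain ⟨M, hM⟩ := exists_nat_gt (N - (α + β + χ))
  refine ⟨α + β + χ + M, by linarith, ?_⟩
  have := (Fil (S := S) (α + β + χ + M)).sub_mem (star_sum_trunc_left D a b c M ha hb' hc)
    (star_sum_trunc_right D a b c M ha hb' hc)
  simpa using this

end Pool.Agent.K7.H66.ML
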